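import Mathlib
import Pool.Agent.Y737.IL.Rc

/-!
Extension of homomorphisms to the complex numbers, outside a hypersurface (from the theorem of
Chevalley).
-/

set_option autoImplicit false

namespace Pool.Agent.H60W

open PrimeSpectrum

/-- the image of a dominant morphism contains a nonempty open set -/
theorem dom_open {A B : Type} [CommRing A] [IsDomain A] [IsNoetherianRing A] [CommRing B]
    [Nontrivial B] (f : A →+* B) (hft : f.FiniteType) (hf : Function.Injective f)
    (hB : (⊥ : Ideal B).IsPrime) :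
    ∃ h : A, h ≠ 0 ∧ ∀ p : PrimeSpectrum A, h ∉ p.asIdeal → p ∈ Set.range (comap f) := by
  have hfp : f.FinitePresentation := RingHom.FinitePresentation.of_finiteType.1 hft
  obtain ⟨S, hS⟩ := exists_constructibleSetData_iff.2 (isConstructible_range_comap hfp)
  have h0 : (⟨⊥, Ideal.isPrime_bot⟩ : PrimeSpectrum A) ∈ S.toSet := by
    rw [hS]
    refine ⟨⟨⊥, hB⟩, ?_⟩
    ext x
    simp only [comap_asIdeal, Ideal.mem_comap, Ideal.mem_bot]
    exact map_eq_zero_iff f hf
  unfold ConstructibleSetData.toSet at h0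
  simp only [Set.mem_iUnion] at h0
  obtain ⟨C, hC, h1, h2⟩ := h0
  refine ⟨C.f, fun h3 => ?_, fun p hp => ?_⟩
  · apply h2
    rw [mem_zeroLocus, Set.singleton_subset_iff]
    change C.f ∈ (⊥ : Ideal A)
    rw [h3]
    exact Ideal.zero_mem _
  · rw [← hS]
    unfold ConstructibleSetData.toSet
    simp only [Set.mem_iUnion]
    refine ⟨C, hC, ?_, ?_⟩
    · rw [mem_zeroLocus]
      rw [mem_zeroLocus] at h1
      intro x hx
      have h3 : x ∈ (⊥ : Ideal A) := h1 hx
      rw [Ideal.mem_bot] at h3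
      rw [h3]
      exact p.asIdeal.zero_mem
    · rw [mem_zeroLocus, Set.singleton_subset_iff]
      exact hp

/-- **Extension of homomorphisms.** -/
theorem am {A B : Type} [CommRing A] [IsDomain A] [Algebra ℂ A] [Algebra.FiniteType ℂ A]
    [CommRing B] [IsDomain B] [Algebra ℂ B] [Algebra.FiniteType ℂ B] (f : A →ₐ[ℂ] B)
    (hf : Function.Injective f) (v : B) (hv : v ≠ 0) :
    ∃ h : A, h ≠ 0 ∧ ∀ φ : A →ₐ[ℂ] ℂ, φ h ≠ 0 → ∃ ψ : B →ₐ[ℂ] ℂ, ψ v ≠ 0 ∧ ∀ a, ψ (f a) = φ a := by
  have hN : IsNoetherianRing A := Algebra.FiniteType.isNoetherianRing ℂ A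
  let B' := Localization.Away v
  have hle : Submonoid.powers v ≤ nonZeroDivisors B := powers_le_nonZeroDivisors_of_noZeroDivisors hv
  have hdom : IsDomain B' := IsLocalization.isDomain_localization hle
  have hinj : Function.Injective (algebraMap B B') := IsLocalization.injective B' hle
  have hftB : Algebra.FiniteType ℂ B' := inferInstance
  let g : A →ₐ[ℂ] B' := (IsScalarTower.toAlgHom ℂ B B').comp f
  have hg : Function.Injective g := hinj.comp hf
  have hgft : g.toRingHom.FiniteType := by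
    have h1 : (algebraMap ℂ B').FiniteType := by
      rw [RingHom.finiteType_algebraMap]
      exact hftB
    have h2 : g.toRingHom.comp (algebraMap ℂ A) = algebraMap ℂ B' := g.comp_algebraMap
    rw [← h2] at h1
    exact RingHom.FiniteType.of_comp_finiteType h1
  obtain ⟨h, h0, hh⟩ := dom_open g.toRingHom hgft hg Ideal.isPrime_bot
  refine ⟨h, h0, fun φ hφ => ?_⟩
  have hsurj : Function.Surjective φ := fun c => ⟨algebraMap ℂ A c, by simp⟩
  let p : PrimeSpectrum A := ⟨RingHom.ker φ, RingHom.ker_isPrime φ⟩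
  obtain ⟨q, hq⟩ := hh p (fun h1 => hφ h1)
  obtain ⟨m, hm, hqm⟩ := Ideal.exists_le_maximal q.asIdeal q.isPrime.ne_top
  let F := B' ⧸ m
  let _ : Field F := Ideal.Quotient.field m
  have hF : Algebra.FiniteType ℂ F := Algebra.FiniteType.of_surjective (Ideal.Quotient.mkₐ ℂ m)
    (Ideal.Quotient.mkₐ_surjective ℂ m)
  obtain ⟨θ, -⟩ := Pool.Agent.Y737.IL.exists_pt F 1 one_ne_zero
  let ψ' : B' →ₐ[ℂ] ℂ := θ.comp (Ideal.Quotient.mkₐ ℂ m)
  have hψ : ∀ a, ψ' (g a) = φ a := by
    intro a
    have h1 : a - algebraMap ℂ A (φ a) ∈ p.asIdeal := by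
      change φ (a - algebraMap ℂ A (φ a)) = 0
      rw [map_sub, AlgHom.commutes]
      exact sub_self _
    rw [← hq] at h1
    have h2 : g (a - algebraMap ℂ A (φ a)) ∈ m := hqm h1
    have h3 : ψ' (g (a - algebraMap ℂ A (φ a))) = 0 := by
      change θ (Ideal.Quotient.mk m _) = 0
      rw [Ideal.Quotient.eq_zero_iff_mem.2 h2, map_zero]
    rw [map_sub, map_sub, AlgHom.commutes, AlgHom.commutes, sub_eq_zero] at h3
    exact h3
  refine ⟨ψ'.comp (IsScalarTower.toAlgHom ℂ B B'), ?_, hψ⟩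
  have hu : IsUnit (algebraMap B B' v) := IsLocalization.Away.algebraMap_isUnit v
  have h4 : IsUnit (ψ' (algebraMap B B' v)) := hu.map ψ'
  exact h4.ne_zero

end Pool.Agent.H60W
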