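import Mathlib
import Pool.Agent.H60W.Am
import Pool.Agent.N131.SU.Fix

/-!
Points of the cone over a family.
-/

set_option autoImplicit false

open MvPolynomial

namespace Pool.Agent.H60W

open Pool.Agent.W602.GT (IsForm)

/-- forms and a common factor -/
theorem scale_form {N m : ℕ} {S : Type} [CommRing S] [Algebra ℂ S]
    {G : MvPolynomial (Fin (N + 1)) ℂ} (hG : G.IsHomogeneous m) (a : S) (x : Fin (N + 1) → S) :
    aeval (fun l => a * x l) G = a ^ m * aeval x G := by
  rw [aeval_def, aeval_def, eval₂_eq', eval₂_eq', Finset.mul_sum]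
  refine Finset.sum_congr rfl fun β hβ => ?_
  simp only [mul_pow, Finset.prod_mul_distrib]
  rw [Finset.prod_pow_eq_pow_sum]
  have h1 : ∑ l, β l = m := by
    rw [← Finsupp.degree_eq_sum, Finsupp.degree_eq_weight_one]
    exact hG (mem_support_iff.1 hβ)
  rw [h1]
  ring

theorem scale_sum {N : ℕ} {S : Type} [CommRing S] [Algebra ℂ S]
    (G : MvPolynomial (Fin (N + 1)) ℂ) (a : S) (x : Fin (N + 1) → S) :
    aeval (fun l => a * x l) G = ∑ i ∈ Finset.range (G.totalDegree + 1),
      a ^ i * aeval x (homogeneousComponent i G) := by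
  conv_lhs => rw [← sum_homogeneousComponent G]
  rw [map_sum]
  exact Finset.sum_congr rfl fun i _ => scale_form (homogeneousComponent_isHomogeneous i G) a x

theorem comp_ev {N : ℕ} (R : Fin (N + 1) → Polynomial ℂ) (q : Polynomial ℂ)
    (G : MvPolynomial (Fin (N + 1)) ℂ) :
    aeval (fun l => (R l).comp q) G = (aeval R G : Polynomial ℂ).comp q := by
  have h1 := MvPolynomial.comp_aeval_apply (f := R) (Polynomial.aeval q : Polynomial ℂ →ₐ[ℂ] _) G
  exact h1.symm

theorem coneC {N : ℕ} {S : Type} [CommRing S] [Algebra ℂ S] (P0 : Fin (N + 1) → S)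
    (G : MvPolynomial (Fin (N + 1)) ℂ) :
    aeval (fun l => (Polynomial.C (P0 l) : Polynomial S)) G = Polynomial.C (aeval P0 G) := by
  induction G using MvPolynomial.induction_on with
  | C c =>
    rw [aeval_C, aeval_C]
    rfl
  | add p q hp hq => rw [map_add, map_add, hp, hq, Polynomial.C_add]
  | mul_X p i hp => rw [map_mul, map_mul, hp, aeval_X, aeval_X, Polynomial.C_mul]

theorem cone_form {N m : ℕ} {S : Type} [CommRing S] [Algebra ℂ S] (P0 : Fin (N + 1) → S)
    {G : MvPolynomial (Fin (N + 1)) ℂ} (hG : G.IsHomogeneous m) :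
    aeval (fun l => (Polynomial.X * Polynomial.C (P0 l) : Polynomial S)) G =
      Polynomial.X ^ m * Polynomial.C (aeval P0 G) := by
  rw [scale_form hG, coneC]

theorem cone_sum {N : ℕ} {S : Type} [CommRing S] [Algebra ℂ S] (P0 : Fin (N + 1) → S)
    (G : MvPolynomial (Fin (N + 1)) ℂ) :
    aeval (fun l => (Polynomial.X * Polynomial.C (P0 l) : Polynomial S)) G =
      ∑ i ∈ Finset.range (G.totalDegree + 1),
        Polynomial.X ^ i * Polynomial.C (aeval P0 (homogeneousComponent i G)) := by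
  rw [scale_sum]
  exact Finset.sum_congr rfl fun i _ => by rw [coneC]

/-- points of the cone over a family -/
theorem cone {N : ℕ} {S : Type} [CommRing S] [IsDomain S] [Algebra ℂ S] [Algebra.FiniteType ℂ S]
    (P0 : Fin (N + 1) → S) (v0 : Polynomial S) (hv0 : v0 ≠ 0) :
    ∃ (H : MvPolynomial (Fin (N + 1)) ℂ) (m : ℕ) (T : Finset (MvPolynomial (Fin (N + 1)) ℂ)),
      H.IsHomogeneous m ∧ aeval P0 H ≠ 0 ∧ (∀ G ∈ T, IsForm G ∧ aeval P0 G = 0) ∧
      ∀ v : Fin (N + 1) → ℂ, (∀ G ∈ T, eval v G = 0) → eval v H ≠ 0 →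
        ∃ (a : ℂ) (ψ : Polynomial S →ₐ[ℂ] ℂ), a ≠ 0 ∧ ψ v0 ≠ 0 ∧
          ∀ l, ψ (Polynomial.X * Polynomial.C (P0 l)) = a * v l := by
  classical
  have hftB : Algebra.FiniteType ℂ (Polynomial S) :=
    Algebra.FiniteType.trans (S := S) inferInstance inferInstance
  let g0 : MvPolynomial (Fin (N + 1)) ℂ →ₐ[ℂ] Polynomial S :=
    aeval fun l => (Polynomial.X * Polynomial.C (P0 l) : Polynomial S)
  have hJform : ∀ (m : ℕ) (G : MvPolynomial (Fin (N + 1)) ℂ), G.IsHomogeneous m →
      (g0 G = 0 ↔ aeval P0 G = 0) := by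
    intro m G hG
    have h1 : g0 G = (Polynomial.X : Polynomial S) ^ m * Polynomial.C (aeval P0 G) :=
      cone_form P0 hG
    rw [h1]
    constructor
    · intro h2
      have h3 := (mul_eq_zero.1 h2).resolve_left (pow_ne_zero _ Polynomial.X_ne_zero)
      exact Polynomial.C_eq_zero.1 h3
    · intro h2
      rw [h2, Polynomial.C_0, mul_zero]
  have hJcomp : ∀ G : MvPolynomial (Fin (N + 1)) ℂ, g0 G = 0 → ∀ i,
      g0 (homogeneousComponent i G) = 0 := by
    intro G hG i
    rw [hJform i _ (homogeneousComponent_isHomogeneous i G)]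
    by_cases hi : i < G.totalDegree + 1
    · have hG' : ∑ i ∈ Finset.range (G.totalDegree + 1),
          (Polynomial.X : Polynomial S) ^ i *
            Polynomial.C (aeval P0 (homogeneousComponent i G)) = 0 := (cone_sum P0 G).symm.trans hG
      have h1 := congrArg (fun r : Polynomial S => r.coeff i) hG'
      simp only [Polynomial.finsetSum_coeff, Polynomial.coeff_zero] at h1
      rw [Finset.sum_eq_single i] at h1
      · rwa [Polynomial.coeff_mul_C, Polynomial.coeff_X_pow_self, one_mul] at h1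
      · intro b _ hb
        rw [Polynomial.coeff_mul_C, Polynomial.coeff_X_pow, if_neg (Ne.symm hb), zero_mul]
      · intro h2
        exact absurd (Finset.mem_range.2 hi) h2
    · rw [homogeneousComponent_eq_zero i G (by omega), map_zero]
  let J : Ideal (MvPolynomial (Fin (N + 1)) ℂ) := RingHom.ker g0
  have hJp : J.IsPrime := RingHom.ker_isPrime g0
  let f : (MvPolynomial (Fin (N + 1)) ℂ ⧸ J) →ₐ[ℂ] Polynomial S := Ideal.kerLiftAlg g0
  have hf : Function.Injective f := Ideal.kerLiftAlg_injective g0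
  obtain ⟨h, h0, hh⟩ := am f hf v0 hv0
  obtain ⟨H', rfl⟩ := Ideal.Quotient.mk_surjective h
  have hH' : g0 H' ≠ 0 := fun h1 => h0 (Ideal.Quotient.eq_zero_iff_mem.2 h1)
  obtain ⟨m, hm⟩ : ∃ m, g0 (homogeneousComponent m H') ≠ 0 := by
    by_contra hcon
    push Not at hcon
    apply hH'
    rw [← sum_homogeneousComponent H', map_sum]
    exact Finset.sum_eq_zero fun i _ => hcon i
  set H := homogeneousComponent m H' with hH
  have hHh : H.IsHomogeneous m := homogeneousComponent_isHomogeneous m H'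
  let J' : Set (MvPolynomial (Fin (N + 1)) ℂ) := {G | G ∈ J ∧ IsForm G}
  obtain ⟨T, hTJ, hT⟩ := N131.SU.gens J'
  refine ⟨H, m, T, hHh, fun h1 => hm ((hJform m H hHh).2 h1), fun G hG => ?_, fun v hv hvH => ?_⟩
  · obtain ⟨h1, m', h2⟩ := hTJ hG
    exact ⟨⟨m', h2⟩, (hJform m' G h2).1 h1⟩
  -- the scaled point
  set Lp : Polynomial ℂ := ∑ i ∈ Finset.range (H'.totalDegree + 1),
    Polynomial.C (eval v (homogeneousComponent i H')) * Polynomial.X ^ i with hLp
  have hevs : ∀ (G : MvPolynomial (Fin (N + 1)) ℂ) (a : ℂ), eval (fun l => a * v l) G =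
      ∑ i ∈ Finset.range (G.totalDegree + 1), a ^ i * eval v (homogeneousComponent i G) := by
    intro G a
    have h1 := scale_sum G a v
    rw [MvPolynomial.aeval_eq_eval, MvPolynomial.aeval_eq_eval] at h1
    exact h1
  have hLe : ∀ a, Lp.eval a = eval (fun l => a * v l) H' := by
    intro a
    rw [hevs, hLp, Polynomial.eval_finsetSum]
    refine Finset.sum_congr rfl fun i _ => ?_
    rw [Polynomial.eval_mul, Polynomial.eval_C, Polynomial.eval_pow, Polynomial.eval_X, mul_comm]
  have hmH : m < H'.totalDegree + 1 := by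
    by_contra hcon
    apply hvH
    rw [hH, homogeneousComponent_eq_zero m H' (by omega), map_zero]
  have hL0 : Lp ≠ 0 := by
    intro h1
    have h2 := congrArg (fun r : Polynomial ℂ => r.coeff m) h1
    simp only [hLp, Polynomial.finsetSum_coeff, Polynomial.coeff_zero,
      Polynomial.coeff_C_mul_X_pow] at h2
    rw [Finset.sum_eq_single m] at h2
    · rw [if_pos rfl] at h2
      exact hvH h2
    · intro b _ hb
      rw [if_neg (Ne.symm hb)]
    · intro h3
      exact absurd (Finset.mem_range.2 hmH) h3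
  obtain ⟨a, ha0, hLa⟩ : ∃ a : ℂ, a ≠ 0 ∧ Lp.eval a ≠ 0 := by
    by_contra hcon
    push Not at hcon
    have h1 : Polynomial.X * Lp = 0 := by
      apply Polynomial.funext
      intro a
      rw [Polynomial.eval_mul, Polynomial.eval_X, Polynomial.eval_zero]
      by_cases ha : a = 0
      · rw [ha, zero_mul]
      · rw [hcon a ha, mul_zero]
    exact (mul_ne_zero Polynomial.X_ne_zero hL0) h1
  have hJv : ∀ G ∈ J, eval v G = 0 := by
    intro G hG
    rw [← sum_homogeneousComponent G, map_sum]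
    refine Finset.sum_eq_zero fun i _ => ?_
    exact N131.SU.span_zero hT (eval v) (fun G' hG' => hv G' hG')
      ⟨hJcomp G hG i, ⟨i, homogeneousComponent_isHomogeneous i G⟩⟩
  have hJv' : ∀ G ∈ J, aeval (fun l => a * v l) G = 0 := by
    intro G hG
    have h1 := hevs G a
    have h2 : aeval (fun l => a * v l) G = eval (fun l => a * v l) G := by
      rw [MvPolynomial.aeval_eq_eval]
    rw [h2, h1]
    refine Finset.sum_eq_zero fun i _ => ?_
    rw [hJv _ (hJcomp G hG i), mul_zero]
  let φ : (MvPolynomial (Fin (N + 1)) ℂ ⧸ J) →ₐ[ℂ] ℂ :=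
    Ideal.Quotient.liftₐ J (aeval fun l => a * v l) hJv'
  obtain ⟨ψ, hψ0, hψ⟩ := hh φ (by
    change aeval (fun l => a * v l) H' ≠ 0
    rw [MvPolynomial.aeval_eq_eval]
    change eval (fun l => a * v l) H' ≠ 0
    rw [← hLe]
    exact hLa)
  refine ⟨a, ψ, ha0, hψ0, fun l => ?_⟩
  have h1 := hψ (Ideal.Quotient.mk J (X l))
  have h2 : f (Ideal.Quotient.mk J (X l)) = Polynomial.X * Polynomial.C (P0 l) := by
    change aeval (fun l => (Polynomial.X * Polynomial.C (P0 l) : Polynomial S)) (X l) = _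
    rw [aeval_X]
  have h3 : φ (Ideal.Quotient.mk J (X l)) = a * v l := by
    change aeval (fun l => a * v l) (X l) = _
    rw [aeval_X]
  rw [h2, h3] at h1
  exact h1

end Pool.Agent.H60W
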