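import Mathlib
import Pool.Agent.H60W.Cone

/-!
Through the points of an open subset of the closure of a family of punctured rational curves pass
members of the family.
-/

set_option autoImplicit false

open MvPolynomial

namespace Pool.Agent.H60W

open Pool.Agent.W602.GT (IsForm)

theorem chev {N : ℕ} {κ : Type} {F : κ → MvPolynomial (Fin (N + 1)) ℂ} {dF : κ → ℕ}
    (hFh : ∀ i, (F i).IsHomogeneous (dF i)) {Q : MvPolynomial (Fin (N + 1)) ℂ} {q : ℕ}
    (hQh : Q.IsHomogeneous q) {M : Type} [Field M] [Algebra ℂ M]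
    {P : Fin (N + 1) → Polynomial M} (hP : ∀ i, aeval P (F i) = 0) {c : M} {k0 : ℕ} (hc0 : c ≠ 0)
    (hQ : aeval P Q = Polynomial.C c * Polynomial.X ^ k0)
    {j k : Fin (N + 1)} (hjk : Polynomial.derivative (P j) * P k ≠
      P j * Polynomial.derivative (P k)) :
    ∃ (H : MvPolynomial (Fin (N + 1)) ℂ) (m : ℕ) (T : Finset (MvPolynomial (Fin (N + 1)) ℂ)),
      H.IsHomogeneous m ∧ aeval P H ≠ 0 ∧ (∀ G ∈ T, IsForm G ∧ aeval P G = 0) ∧
      ∀ v : Fin (N + 1) → ℂ, (∀ G ∈ T, eval v G = 0) → eval v H ≠ 0 →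
        ∃ p : Fin (N + 1) → Polynomial ℂ, (∀ l, (p l).natDegree ≤ (P l).natDegree) ∧
          (∀ i, aeval p (F i) = 0) ∧
          (∃ c : ℂ, c ≠ 0 ∧ aeval p Q = Polynomial.C c * Polynomial.X ^ k0) ∧
          Polynomial.derivative (p j) * p k ≠ p j * Polynomial.derivative (p k) ∧
          ∀ l, (p l).eval 1 = v l := by
  classical
  -- the algebra of the coefficients
  let s : Finset M := Finset.univ.biUnion fun l : Fin (N + 1) => (P l).coeffs
  let A : Subalgebra ℂ M := Algebra.adjoin ℂ (s : Set M)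
  have hft : Algebra.FiniteType ℂ A := A.fg_iff_finiteType.1 (Subalgebra.fg_adjoin_finset s)
  have hcoef : ∀ l i, (P l).coeff i ∈ A := by
    intro l i
    by_cases h0 : (P l).coeff i = 0
    · rw [h0]
      exact A.zero_mem
    · refine Algebra.subset_adjoin ?_
      rw [Finset.mem_coe, Finset.mem_biUnion]
      exact ⟨l, Finset.mem_univ _, Polynomial.coeff_mem_coeffs h0⟩
  have hl : ∀ l, ∃ q : Polynomial A, q.map (A.val : A →+* M) = P l := by
    intro l
    rw [← Polynomial.mem_lifts, Polynomial.lifts_iff_coeff_lifts]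
    intro i
    exact ⟨⟨_, hcoef l i⟩, rfl⟩
  choose P0 hP0 using hl
  have hinj : Function.Injective (Polynomial.map (A.val : A →+* M)) :=
    Polynomial.map_injective _ Subtype.val_injective
  have hdeg : ∀ l, (P0 l).natDegree = (P l).natDegree := by
    intro l
    rw [← hP0 l, Polynomial.natDegree_map_eq_of_injective Subtype.val_injective]
  have hev : ∀ G : MvPolynomial (Fin (N + 1)) ℂ, (aeval P0 G).map (A.val : A →+* M) = aeval P G := by
    intro G
    have h1 := comp_aeval_apply (f := P0) (Polynomial.mapAlgHom A.val) G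
    have h2 : (fun i => Polynomial.mapAlgHom A.val (P0 i)) = P := funext hP0
    rw [h2] at h1
    exact h1
  have hev0 : ∀ G : MvPolynomial (Fin (N + 1)) ℂ, aeval P0 G = 0 ↔ aeval P G = 0 := by
    intro G
    rw [← hev G]
    constructor
    · intro h
      rw [h, Polynomial.map_zero]
    · intro h
      apply hinj
      rw [h, Polynomial.map_zero]
  -- the form `Q`
  obtain ⟨c1, hc1⟩ : ∃ c1 : A, (c1 : M) = c := by
    refine ⟨(aeval P0 Q : Polynomial A).coeff k0, ?_⟩
    have h1 := congrArg (fun q : Polynomial M => q.coeff k0) (hev Q)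
    simp only [Polynomial.coeff_map] at h1
    rw [hQ, Polynomial.coeff_C_mul, Polynomial.coeff_X_pow_self, mul_one] at h1
    exact h1
  have hc10 : c1 ≠ 0 := by
    rintro rfl
    exact hc0 hc1.symm
  have hQ0 : (aeval P0 Q : Polynomial A) = Polynomial.C c1 * Polynomial.X ^ k0 := by
    apply hinj
    rw [hev, hQ, Polynomial.map_mul, Polynomial.map_pow, Polynomial.map_X, Polynomial.map_C, ← hc1]
    rfl
  have hw : ∃ n', (Polynomial.derivative (P0 j) * P0 k -
      P0 j * Polynomial.derivative (P0 k)).coeff n' ≠ 0 := by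
    by_contra hcon
    push Not at hcon
    apply hjk
    have h1 : Polynomial.derivative (P0 j) * P0 k - P0 j * Polynomial.derivative (P0 k) = 0 :=
      Polynomial.ext fun n => by rw [hcon n, Polynomial.coeff_zero]
    have h2 := congrArg (Polynomial.map (A.val : A →+* M)) (sub_eq_zero.1 h1)
    rw [Polynomial.map_mul, Polynomial.map_mul, ← Polynomial.derivative_map,
      ← Polynomial.derivative_map, hP0, hP0] at h2
    exact h2
  obtain ⟨n', hn'⟩ := hw
  set w1 : A := (Polynomial.derivative (P0 j) * P0 k -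
      P0 j * Polynomial.derivative (P0 k)).coeff n' with hw1
  have hft1 : Algebra.FiniteType ℂ (Polynomial A) :=
    Algebra.FiniteType.trans (S := A) hft inferInstance
  let v0 : Polynomial (Polynomial A) :=
    Polynomial.X * Polynomial.C (Polynomial.X * Polynomial.C (c1 * w1))
  have hv0 : v0 ≠ 0 := mul_ne_zero Polynomial.X_ne_zero (by
    rw [Ne, Polynomial.C_eq_zero]
    exact mul_ne_zero Polynomial.X_ne_zero (by
      rw [Ne, Polynomial.C_eq_zero]
      exact mul_ne_zero hc10 hn'))
  obtain ⟨H, m, T, hHh, hH0, hT, hcone⟩ := cone (S := Polynomial A) P0 v0 hv0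
  refine ⟨H, m, T, hHh, fun h1 => hH0 ((hev0 H).2 h1), fun G hG => ?_, fun v hv hvH => ?_⟩
  · exact ⟨(hT G hG).1, (hev0 G).1 (hT G hG).2⟩
  obtain ⟨a, ψ, ha0, hψ0, hψ⟩ := hcone v hv hvH
  let χ : A →+* ℂ := ψ.toRingHom.comp (Polynomial.C.comp Polynomial.C)
  set t0 : ℂ := ψ (Polynomial.C Polynomial.X) with ht0
  set s0 : ℂ := ψ Polynomial.X with hs0
  have hψv : ψ v0 = s0 * (t0 * (χ c1 * χ w1)) := by
    change ψ (Polynomial.X * Polynomial.C (Polynomial.X * Polynomial.C (c1 * w1))) = _
    rw [map_mul, Polynomial.C_mul, map_mul, Polynomial.C_mul, Polynomial.C_mul, map_mul]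
    rfl
  rw [hψv] at hψ0
  have hs00 : s0 ≠ 0 := left_ne_zero_of_mul hψ0
  have hψ1 := right_ne_zero_of_mul hψ0
  have ht00 : t0 ≠ 0 := left_ne_zero_of_mul hψ1
  have hψ2 := right_ne_zero_of_mul hψ1
  have hχc : χ c1 ≠ 0 := left_ne_zero_of_mul hψ2
  have hχw : χ w1 ≠ 0 := right_ne_zero_of_mul hψ2
  have hψC : ∀ r : Polynomial A, ψ (Polynomial.C r) = (r.map χ).eval t0 := by
    intro r
    rw [Polynomial.eval_map]
    have h1 : (ψ.toRingHom.comp Polynomial.C) r = Polynomial.eval₂ χ t0 r := by
      have h2 := Polynomial.hom_eval₂ r Polynomial.C (ψ.toRingHom.comp Polynomial.C) Polynomial.X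
      rw [Polynomial.eval₂_C_X] at h2
      exact h2
    exact h1
  have hval : ∀ l, s0 * ((P0 l).map χ).eval t0 = a * v l := by
    intro l
    have h1 := hψ l
    rw [map_mul, hψC] at h1
    exact h1
  -- the curve
  let R : Fin (N + 1) → Polynomial ℂ := fun l => (P0 l).map χ
  let ℓ : Polynomial ℂ := Polynomial.C t0 * Polynomial.X
  set μ : ℂ := a⁻¹ * s0 with hμ
  have hμ0 : μ ≠ 0 := mul_ne_zero (inv_ne_zero ha0) hs00
  have hevR : ∀ G : MvPolynomial (Fin (N + 1)) ℂ, aeval R G = (aeval P0 G).map χ := by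
    intro G
    have h1 : (Polynomial.mapRingHom χ).comp (algebraMap ℂ (Polynomial A)) =
        algebraMap ℂ (Polynomial ℂ) := by
      ext x
      · change (Polynomial.map χ (Polynomial.C (algebraMap ℂ A x))).coeff _ =
          (Polynomial.C x : Polynomial ℂ).coeff _
        rw [Polynomial.map_C]
        congr 2
        change ψ (Polynomial.C (Polynomial.C (algebraMap ℂ A x))) = x
        have h2 : (Polynomial.C (Polynomial.C (algebraMap ℂ A x)) : Polynomial (Polynomial A)) =
            algebraMap ℂ (Polynomial (Polynomial A)) x := rfl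
        rw [h2, AlgHom.commutes]
        rfl
    have h2 := MvPolynomial.hom_eval₂ G (algebraMap ℂ (Polynomial A)) (Polynomial.mapRingHom χ) P0
    rw [h1] at h2
    exact h2.symm
  have hscale : ∀ (m : ℕ) (G : MvPolynomial (Fin (N + 1)) ℂ), G.IsHomogeneous m →
      aeval (fun l => Polynomial.C μ * (R l).comp ℓ) G =
        Polynomial.C μ ^ m * ((aeval P0 G).map χ).comp ℓ := by
    intro m G hG
    rw [scale_form hG, comp_ev, hevR]
  refine ⟨fun l => Polynomial.C μ * (R l).comp ℓ, fun l => ?_, fun i => ?_,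
    ⟨μ ^ q * (χ c1 * t0 ^ k0), mul_ne_zero (pow_ne_zero _ hμ0)
      (mul_ne_zero hχc (pow_ne_zero _ ht00)), ?_⟩, fun hcon => ?_, fun l => ?_⟩
  · refine (Polynomial.natDegree_C_mul_le _ _).trans ?_
    refine Polynomial.natDegree_comp_le.trans ?_
    have h1 : ℓ.natDegree ≤ 1 :=
      (Polynomial.natDegree_C_mul_le _ _).trans Polynomial.natDegree_X_le
    have h2 : (R l).natDegree ≤ (P l).natDegree :=
      Polynomial.natDegree_map_le.trans (hdeg l).le
    calc (R l).natDegree * ℓ.natDegree ≤ (P l).natDegree * 1 := Nat.mul_le_mul h2 h1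
      _ = _ := mul_one _
  · rw [hscale _ _ (hFh i), (hev0 (F i)).2 (hP i), Polynomial.map_zero, Polynomial.zero_comp,
      mul_zero]
  · rw [hscale _ _ hQh, hQ0, Polynomial.map_mul, Polynomial.map_pow, Polynomial.map_X,
      Polynomial.map_C, Polynomial.mul_comp, Polynomial.pow_comp, Polynomial.X_comp,
      Polynomial.C_comp]
    have h1 : Polynomial.C (μ ^ q * (χ c1 * t0 ^ k0)) =
        Polynomial.C μ ^ q * (Polynomial.C (χ c1) * Polynomial.C t0 ^ k0) := by
      rw [Polynomial.C_mul, Polynomial.C_mul, Polynomial.C_pow, Polynomial.C_pow]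
    rw [h1, mul_pow]
    ring
  · -- the Wronskian
    have h1 : ∀ l, Polynomial.derivative (Polynomial.C μ * (R l).comp ℓ) =
        Polynomial.C μ * (Polynomial.C t0 * (Polynomial.derivative (R l)).comp ℓ) := by
      intro l
      rw [Polynomial.derivative_C_mul, Polynomial.derivative_comp]
      congr 2
      change Polynomial.derivative (Polynomial.C t0 * Polynomial.X) = _
      rw [Polynomial.derivative_C_mul, Polynomial.derivative_X, mul_one]
    rw [h1, h1] at hcon
    have h2 : (Polynomial.derivative (R j) * R k - R j * Polynomial.derivative (R k)).comp ℓ = 0 := by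
      rw [Polynomial.sub_comp, Polynomial.mul_comp, Polynomial.mul_comp]
      have h3 : Polynomial.C (μ * μ * t0) ≠ (0 : Polynomial ℂ) := by
        rw [Ne, Polynomial.C_eq_zero]
        exact mul_ne_zero (mul_ne_zero hμ0 hμ0) ht00
      have h5 : Polynomial.C (μ * μ * t0) *
          ((Polynomial.derivative (R j)).comp ℓ * (R k).comp ℓ -
            (R j).comp ℓ * (Polynomial.derivative (R k)).comp ℓ) = 0 := by
        rw [Polynomial.C_mul, Polynomial.C_mul]
        linear_combination hcon
      exact (mul_eq_zero.1 h5).resolve_left h3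
    have h4 := congrArg (fun r : Polynomial ℂ => r.coeff n') h2
    simp only [ℓ, Polynomial.comp_C_mul_X_coeff, Polynomial.coeff_zero] at h4
    have h5 := (mul_eq_zero.1 h4).resolve_right (pow_ne_zero _ ht00)
    apply hχw
    have h6 : Polynomial.derivative (R j) * R k - R j * Polynomial.derivative (R k) =
        (Polynomial.derivative (P0 j) * P0 k - P0 j * Polynomial.derivative (P0 k)).map χ := by
      rw [Polynomial.map_sub, Polynomial.map_mul, Polynomial.map_mul, ← Polynomial.derivative_map,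
        ← Polynomial.derivative_map]
    rw [h6, Polynomial.coeff_map] at h5
    exact h5
  · rw [Polynomial.eval_mul, Polynomial.eval_C, Polynomial.eval_comp]
    have h1 : ℓ.eval 1 = t0 := by
      change (Polynomial.C t0 * Polynomial.X).eval 1 = t0
      rw [Polynomial.eval_mul, Polynomial.eval_C, Polynomial.eval_X, mul_one]
    rw [h1, hμ, mul_assoc]
    change a⁻¹ * (s0 * ((P0 l).map χ).eval t0) = v l
    rw [hval, inv_mul_cancel_left₀ ha0]

end Pool.Agent.H60W
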