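import Mathlib
import Pool.Agent.N131.SU.LogM

/-!
Sequences of polynomials of bounded degree and polynomials over the ultrapower.
-/

set_option autoImplicit false

namespace Pool.Agent.H60W

open Filter MvPolynomial Pool.Agent.N131.SU

variable {N : ℕ}

/-- the values at an index -/
def evI (k : ℕ) : (ℕ → ℂ) →+* ℂ := Pi.evalRingHom (fun _ => ℂ) k

theorem evI_apply (k : ℕ) (a : ℕ → ℂ) : evI k a = a k := rfl

/-- equality of polynomials over the ultrapower -/
theorem los {T T' : Polynomial (ℕ → ℂ)} : T.map gc = T'.map gc ↔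
    ∀ᶠ k in (U : Filter ℕ), T.map (evI k) = T'.map (evI k) := by
  constructor
  · intro h
    have h1 : ∀ᶠ k in (U : Filter ℕ), ∀ i ∈ Finset.range (max T.natDegree T'.natDegree + 1),
        T.coeff i k = T'.coeff i k := by
      rw [eventually_all_finset]
      intro i _
      have h2 := congrArg (fun q : Polynomial CS => q.coeff i) h
      simp only [Polynomial.coeff_map] at h2
      exact gc_eq.1 h2
    filter_upwards [h1] with k hk
    ext i
    rw [Polynomial.coeff_map, Polynomial.coeff_map, evI_apply, evI_apply]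
    by_cases hi : i < max T.natDegree T'.natDegree + 1
    · exact hk i (Finset.mem_range.2 hi)
    · rw [Polynomial.coeff_eq_zero_of_natDegree_lt (p := T) (by omega),
        Polynomial.coeff_eq_zero_of_natDegree_lt (p := T') (by omega)]
  · intro h
    ext i
    rw [Polynomial.coeff_map, Polynomial.coeff_map, gc_eq]
    filter_upwards [h] with k hk
    have h2 := congrArg (fun q : Polynomial ℂ => q.coeff i) hk
    simp only [Polynomial.coeff_map, evI_apply] at h2
    exact h2

/-- inequality of polynomials over the ultrapower -/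
theorem los_ne {T T' : Polynomial (ℕ → ℂ)} (h : T.map gc ≠ T'.map gc) :
    ∀ᶠ k in (U : Filter ℕ), T.map (evI k) ≠ T'.map (evI k) := by
  rw [Ne, los] at h
  exact Ultrafilter.eventually_not.2 h

variable (σ : ℂ ≃+* CS)

/-- the sequence of the coefficients of a polynomial -/
noncomputable def up (p : Polynomial ℂ) : Polynomial (ℕ → ℂ) :=
  ∑ i ∈ Finset.range (p.natDegree + 1), Polynomial.C (rp σ (p.coeff i)) * Polynomial.X ^ i

theorem up_gc (p : Polynomial ℂ) : (up σ p).map gc = p.map (σ : ℂ →+* CS) := by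
  unfold up
  rw [Polynomial.map_sum]
  conv_rhs => rw [p.as_sum_range_C_mul_X_pow]
  rw [Polynomial.map_sum]
  refine Finset.sum_congr rfl fun i _ => ?_
  rw [Polynomial.map_mul, Polynomial.map_mul, Polynomial.map_pow, Polynomial.map_pow,
    Polynomial.map_X, Polynomial.map_X, Polynomial.map_C, Polynomial.map_C]
  congr 2
  exact (rp_spec _).symm

theorem up_deg (p : Polynomial ℂ) : (up σ p).natDegree ≤ p.natDegree := by
  unfold up
  refine Polynomial.natDegree_sum_le_of_forall_le _ _ fun i hi => ?_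
  refine (Polynomial.natDegree_C_mul_X_pow_le _ _).trans ?_
  have := Finset.mem_range.1 hi
  omega

/-- the sequence of the coefficients of a form -/
noncomputable def upM (G : MvPolynomial (Fin (N + 1)) ℂ) : MvPolynomial (Fin (N + 1)) (ℕ → ℂ) :=
  ∑ β ∈ G.support, monomial β (rp σ (coeff β G))

theorem upM_gc (G : MvPolynomial (Fin (N + 1)) ℂ) :
    MvPolynomial.map gc (upM σ G) = MvPolynomial.map (σ : ℂ →+* CS) G := by
  unfold upM
  rw [map_sum]
  conv_rhs => rw [G.as_sum]
  rw [map_sum]
  refine Finset.sum_congr rfl fun β _ => ?_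
  rw [map_monomial, map_monomial]
  congr 1
  exact (rp_spec _).symm

theorem upM_ev (G : MvPolynomial (Fin (N + 1)) ℂ) (k : ℕ) :
    MvPolynomial.map (evI k) (upM σ G) = sq σ G k := by
  unfold upM N131.SU.sq
  rw [map_sum]
  refine Finset.sum_congr rfl fun β _ => ?_
  rw [map_monomial]
  rfl

/-- base change of the value of a polynomial -/
theorem map_ev {R S : Type} [CommRing R] [CommRing S] (φ : R →+* S)
    (P : Fin (N + 1) → Polynomial R) (G : MvPolynomial (Fin (N + 1)) R) :
    (aeval P G).map φ = aeval (fun j => (P j).map φ) (MvPolynomial.map φ G) := by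
  rw [aeval_def, aeval_def, eval₂_map]
  have h1 := MvPolynomial.hom_eval₂ G (algebraMap R (Polynomial R)) (Polynomial.mapRingHom φ) P
  have h2 : (Polynomial.mapRingHom φ).comp (algebraMap R (Polynomial R)) =
      (algebraMap S (Polynomial S)).comp φ := by
    ext c
    simp
  rw [h2] at h1
  exact h1

/-- the value of a form along a polynomial curve, for the sequences -/
theorem ev_gc (p : Fin (N + 1) → Polynomial ℂ) (G : MvPolynomial (Fin (N + 1)) ℂ) :
    (aeval (fun j => up σ (p j)) (upM σ G) : Polynomial (ℕ → ℂ)).map gc =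
      (aeval p G).map (σ : ℂ →+* CS) := by
  rw [map_ev, map_ev, upM_gc]
  congr 2
  funext j
  exact up_gc σ (p j)

theorem ev_ev (p : Fin (N + 1) → Polynomial ℂ) (G : MvPolynomial (Fin (N + 1)) ℂ) (k : ℕ) :
    (aeval (fun j => up σ (p j)) (upM σ G) : Polynomial (ℕ → ℂ)).map (evI k) =
      aeval (fun j => (up σ (p j)).map (evI k)) (sq σ G k) := by
  rw [map_ev, upM_ev]

/-- **Transfer of a polynomial curve.** -/
theorem transfer {κ : Type} [Finite κ] (p : Fin (N + 1) → Polynomial ℂ)
    {F : κ → MvPolynomial (Fin (N + 1)) ℂ} (hF : ∀ i, aeval p (F i) = 0)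
    {Q A : MvPolynomial (Fin (N + 1)) ℂ} {c : ℂ} {m : ℕ} (hc : c ≠ 0)
    (hQ : aeval p Q = Polynomial.C c * Polynomial.X ^ m) (hA : aeval p A ≠ 0)
    {j l : Fin (N + 1)} (hjl : Polynomial.derivative (p j) * p l ≠
      p j * Polynomial.derivative (p l)) :
    ∀ᶠ k in (U : Filter ℕ), ∃ P : Fin (N + 1) → Polynomial ℂ,
      (∀ i, (P i).natDegree ≤ (p i).natDegree) ∧ (∀ i, aeval P (sq σ (F i) k) = 0) ∧
      (∃ c : ℂ, c ≠ 0 ∧ aeval P (sq σ Q k) = Polynomial.C c * Polynomial.X ^ m) ∧
      aeval P (sq σ A k) ≠ 0 ∧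
      Polynomial.derivative (P j) * P l ≠ P j * Polynomial.derivative (P l) := by
  have hinj : Function.Injective (Polynomial.map (σ : ℂ →+* CS)) :=
    Polynomial.map_injective _ σ.injective
  have e1 : ∀ᶠ k in (U : Filter ℕ), ∀ i,
      aeval (fun j => (up σ (p j)).map (evI k)) (sq σ (F i) k) = 0 := by
    rw [eventually_all]
    intro i
    have h1 : (aeval (fun j => up σ (p j)) (upM σ (F i)) : Polynomial (ℕ → ℂ)).map gc =
        (0 : Polynomial (ℕ → ℂ)).map gc := by
      rw [ev_gc, hF, Polynomial.map_zero, Polynomial.map_zero]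
    filter_upwards [los.1 h1] with k hk
    rw [ev_ev, Polynomial.map_zero] at hk
    exact hk
  have e2 : ∀ᶠ k in (U : Filter ℕ), aeval (fun j => (up σ (p j)).map (evI k)) (sq σ Q k) =
      Polynomial.C (rp σ c k) * Polynomial.X ^ m := by
    have h1 : (aeval (fun j => up σ (p j)) (upM σ Q) : Polynomial (ℕ → ℂ)).map gc =
        (Polynomial.C (rp σ c) * Polynomial.X ^ m : Polynomial (ℕ → ℂ)).map gc := by
      rw [ev_gc, hQ, Polynomial.map_mul, Polynomial.map_mul, Polynomial.map_pow,
        Polynomial.map_pow, Polynomial.map_X, Polynomial.map_X, Polynomial.map_C,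
        Polynomial.map_C]
      congr 2
      exact rp_spec _
    filter_upwards [los.1 h1] with k hk
    rw [ev_ev, Polynomial.map_mul, Polynomial.map_pow, Polynomial.map_X, Polynomial.map_C] at hk
    exact hk
  have e3 : ∀ᶠ k in (U : Filter ℕ), rp σ c k ≠ 0 := by
    have h1 : ¬ ∀ᶠ k in (U : Filter ℕ), rp σ c k = 0 := by
      intro h2
      have h3 : gc (rp σ c) = gc 0 := gc_eq.2 h2
      rw [← rp_spec, map_zero, map_eq_zero_iff σ σ.injective] at h3
      exact hc h3
    exact Ultrafilter.eventually_not.2 h1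
  have e4 : ∀ᶠ k in (U : Filter ℕ),
      aeval (fun j => (up σ (p j)).map (evI k)) (sq σ A k) ≠ 0 := by
    have h1 : (aeval (fun j => up σ (p j)) (upM σ A) : Polynomial (ℕ → ℂ)).map gc ≠
        (0 : Polynomial (ℕ → ℂ)).map gc := by
      rw [ev_gc, Polynomial.map_zero]
      intro h2
      rw [← Polynomial.map_zero (σ : ℂ →+* CS)] at h2
      exact hA (hinj h2)
    filter_upwards [los_ne h1] with k hk
    rw [ev_ev, Polynomial.map_zero] at hk
    exact hk
  have e5 : ∀ᶠ k in (U : Filter ℕ),
      Polynomial.derivative ((up σ (p j)).map (evI k)) * (up σ (p l)).map (evI k) ≠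
        (up σ (p j)).map (evI k) * Polynomial.derivative ((up σ (p l)).map (evI k)) := by
    have h1 : (Polynomial.derivative (up σ (p j)) * up σ (p l)).map gc ≠
        (up σ (p j) * Polynomial.derivative (up σ (p l))).map gc := by
      rw [Polynomial.map_mul, Polynomial.map_mul, ← Polynomial.derivative_map,
        ← Polynomial.derivative_map, up_gc, up_gc, Polynomial.derivative_map,
        Polynomial.derivative_map, ← Polynomial.map_mul, ← Polynomial.map_mul]
      exact fun h2 => hjl (hinj h2)
    filter_upwards [los_ne h1] with k hk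
    rw [Polynomial.map_mul, Polynomial.map_mul, ← Polynomial.derivative_map,
      ← Polynomial.derivative_map] at hk
    exact hk
  filter_upwards [e1, e2, e3, e4, e5] with k h1 h2 h3 h4 h5
  exact ⟨fun j => (up σ (p j)).map (evI k), fun i =>
    Polynomial.natDegree_map_le.trans (up_deg σ (p i)), h1, ⟨_, h3, h2⟩, h4, h5⟩

/-- the limit of a sequence of forms -/
theorem exists_lim {m : ℕ} (G : ℕ → MvPolynomial (Fin (N + 1)) ℂ)
    (hG : ∀ k, (G k).IsHomogeneous m) :
    ∃ G' : MvPolynomial (Fin (N + 1)) ℂ, G'.IsHomogeneous m ∧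
      ∀ᶠ k in (U : Filter ℕ), sq σ G' k = G k := by
  classical
  let A : Finset (Fin (N + 1) →₀ ℕ) := Finset.univ.finsuppAntidiag m
  have hA : ∀ β : Fin (N + 1) →₀ ℕ, β ∈ A ↔ β.degree = m := by
    intro β
    rw [Finset.mem_finsuppAntidiag, Finsupp.degree_eq_sum]
    exact ⟨fun h1 => h1.1, fun h1 => ⟨h1, Finset.subset_univ _⟩⟩
  let G' : MvPolynomial (Fin (N + 1)) ℂ :=
    ∑ β ∈ A, monomial β (σ.symm (gc fun k => coeff β (G k)))
  have hc : ∀ β, coeff β G' = if β ∈ A then σ.symm (gc fun k => coeff β (G k)) else 0 := by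
    intro β
    simp only [G']
    rw [coeff_sum]
    simp only [coeff_monomial]
    rw [Finset.sum_ite_eq' A β]
  have hout : ∀ β, β ∉ A → ∀ k, coeff β (G k) = 0 := by
    intro β hβ k
    by_contra hcon
    apply hβ
    rw [hA]
    have h2 := hG k hcon
    rwa [Finsupp.degree_eq_weight_one]
  have hhom : G'.IsHomogeneous m := by
    apply IsHomogeneous.sum
    intro β hβ
    exact isHomogeneous_monomial _ ((hA β).1 hβ)
  refine ⟨G', hhom, ?_⟩
  have h1 : ∀ᶠ k in (U : Filter ℕ), ∀ β ∈ A, rp σ (coeff β G') k = coeff β (G k) := by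
    rw [eventually_all_finset]
    intro β hβ
    have h2 : gc (rp σ (coeff β G')) = gc fun k => coeff β (G k) := by
      rw [← rp_spec, hc, if_pos hβ, RingEquiv.apply_symm_apply]
    exact gc_eq.1 h2
  have h0 : ∀ᶠ k in (U : Filter ℕ), rp σ 0 k = 0 := by
    have h2 : gc (rp σ 0) = gc 0 := by
      rw [← rp_spec, map_zero, map_zero]
    exact gc_eq.1 h2
  have hsup : G'.support ⊆ A := by
    intro β hβ
    by_contra h
    rw [mem_support_iff, hc, if_neg h] at hβ
    exact hβ rfl
  filter_upwards [h1, h0] with k hk hk0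
  ext β
  unfold N131.SU.sq
  rw [coeff_sum]
  simp only [coeff_monomial]
  rw [Finset.sum_ite_eq' G'.support β]
  split_ifs with h
  · exact hk β (hsup h)
  · by_cases hβ : β ∈ A
    · rw [← hk β hβ, notMem_support_iff.1 h, hk0]
    · exact (hout β hβ k).symm

end Pool.Agent.H60W
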