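import Pool.Agent.Y377.IL.StmA
import Pool.Agent.Y737.IL.Rc

/-!
Specialisation of punctured rational curves, with the degrees.
-/

set_option autoImplicit false

open MvPolynomial

namespace Pool.Agent.H60W

theorem spz {N : ℕ} {κ : Type} {F : κ → MvPolynomial (Fin (N + 1)) ℂ}
    {Q G' : MvPolynomial (Fin (N + 1)) ℂ} {M : Type} [Field M] [Algebra ℂ M]
    {P : Fin (N + 1) → Polynomial M} (hP : ∀ i, aeval P (F i) = 0) {c : M} {k0 : ℕ} (hc0 : c ≠ 0)
    (hQ : aeval P Q = Polynomial.C c * Polynomial.X ^ k0) (hG : aeval P G' ≠ 0)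
    {j k : Fin (N + 1)} (hjk : Polynomial.derivative (P j) * P k ≠
      P j * Polynomial.derivative (P k)) :
    ∃ p : Fin (N + 1) → Polynomial ℂ, (∀ l, (p l).natDegree ≤ (P l).natDegree) ∧
      (∀ i, aeval p (F i) = 0) ∧
      (∃ c : ℂ, c ≠ 0 ∧ aeval p Q = Polynomial.C c * Polynomial.X ^ k0) ∧ aeval p G' ≠ 0 ∧
      Polynomial.derivative (p j) * p k ≠ p j * Polynomial.derivative (p k) := by
  classical
  -- the algebra of the coefficients
  let s : Finset M := Finset.univ.biUnion fun l : Fin (N + 1) => (P l).coeffs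
  let A : Subalgebra ℂ M := Algebra.adjoin ℂ (s : Set M)
  have hft : Algebra.FiniteType ℂ A := A.fg_iff_finiteType.1 (Subalgebra.fg_adjoin_finset s)
  have hcoef : ∀ l i, (P l).coeff i ∈ A := by
    intro l i
    by_cases h0 : (P l).coeff i = 0
    · rw [h0]
      exact A.zero_mem
    · refine Algebra.subset_adjoin ?_
      rw [Finset.mem_coe, Finset.mem_biUnion]
      exact ⟨l, Finset.mem_univ _, Polynomial.coeff_mem_coeffs h0⟩
  have hl : ∀ l, ∃ q : Polynomial A, q.map (A.val : A →+* M) = P l := by
    intro l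
    rw [← Polynomial.mem_lifts, Polynomial.lifts_iff_coeff_lifts]
    intro i
    exact ⟨⟨_, hcoef l i⟩, rfl⟩
  choose P0 hP0 using hl
  have hinj : Function.Injective (Polynomial.map (A.val : A →+* M)) :=
    Polynomial.map_injective _ Subtype.val_injective
  have hdeg : ∀ l, (P0 l).natDegree = (P l).natDegree := by
    intro l
    rw [← hP0 l, Polynomial.natDegree_map_eq_of_injective Subtype.val_injective]
  have hev : ∀ G : MvPolynomial (Fin (N + 1)) ℂ, (aeval P0 G).map (A.val : A →+* M) = aeval P G := by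
    intro G
    have h1 := comp_aeval_apply (f := P0) (Polynomial.mapAlgHom A.val) G
    have h2 : (fun i => Polynomial.mapAlgHom A.val (P0 i)) = P := funext hP0
    rw [h2] at h1
    exact h1
  -- the form `Q`
  obtain ⟨c1, hc1⟩ : ∃ c1 : A, (c1 : M) = c := by
    refine ⟨(aeval P0 Q : Polynomial A).coeff k0, ?_⟩
    have h1 := congrArg (fun q : Polynomial M => q.coeff k0) (hev Q)
    simp only [Polynomial.coeff_map] at h1
    rw [hQ, Polynomial.coeff_C_mul, Polynomial.coeff_X_pow_self, mul_one] at h1
    exact h1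
  have hc10 : c1 ≠ 0 := by
    rintro rfl
    exact hc0 hc1.symm
  have hQ0 : (aeval P0 Q : Polynomial A) = Polynomial.C c1 * Polynomial.X ^ k0 := by
    apply hinj
    rw [hev, hQ, Polynomial.map_mul, Polynomial.map_pow, Polynomial.map_X, Polynomial.map_C, ← hc1]
    rfl
  -- the nonzero coefficients
  have hg : ∃ n, (aeval P0 G' : Polynomial A).coeff n ≠ 0 := by
    by_contra hcon
    push Not at hcon
    apply hG
    have h1 : (aeval P0 G' : Polynomial A) = 0 :=
      Polynomial.ext fun n => by rw [hcon n, Polynomial.coeff_zero]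
    rw [← hev, h1, Polynomial.map_zero]
  obtain ⟨n, hn⟩ := hg
  have hw : ∃ n', (Polynomial.derivative (P0 j) * P0 k -
      P0 j * Polynomial.derivative (P0 k)).coeff n' ≠ 0 := by
    by_contra hcon
    push Not at hcon
    apply hjk
    have h1 : Polynomial.derivative (P0 j) * P0 k - P0 j * Polynomial.derivative (P0 k) = 0 :=
      Polynomial.ext fun n => by rw [hcon n, Polynomial.coeff_zero]
    have h2 := congrArg (Polynomial.map (A.val : A →+* M)) (sub_eq_zero.1 h1)
    rw [Polynomial.map_mul, Polynomial.map_mul, ← Polynomial.derivative_map,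
      ← Polynomial.derivative_map, hP0, hP0] at h2
    exact h2
  obtain ⟨n', hn'⟩ := hw
  obtain ⟨h, hh⟩ := Pool.Agent.Y737.IL.exists_pt A _ (mul_ne_zero (mul_ne_zero hn hn') hc10)
  rw [map_mul, map_mul] at hh
  have hh3 := right_ne_zero_of_mul hh
  have hh4 := left_ne_zero_of_mul hh
  have hh1 := left_ne_zero_of_mul hh4
  have hh2 := right_ne_zero_of_mul hh4
  -- the curve over the complex numbers
  have hevh : ∀ G : MvPolynomial (Fin (N + 1)) ℂ,
      aeval (fun l => (P0 l).map (h : A →+* ℂ)) G = (aeval P0 G).map (h : A →+* ℂ) := by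
    intro G
    exact (comp_aeval_apply (f := P0) (Polynomial.mapAlgHom h) G).symm
  refine ⟨fun l => (P0 l).map (h : A →+* ℂ), fun l => ?_, fun i => ?_, ⟨h c1, hh3, ?_⟩, fun h0 => ?_,
    fun hc => hh2 ?_⟩
  · exact Polynomial.natDegree_map_le.trans (hdeg l).le
  · have h1 : (aeval P0 (F i) : Polynomial A) = 0 := by
      apply hinj
      rw [hev, hP i, Polynomial.map_zero]
    rw [hevh, h1, Polynomial.map_zero]
  · rw [hevh, hQ0, Polynomial.map_mul, Polynomial.map_pow, Polynomial.map_X, Polynomial.map_C]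
    rfl
  · apply hh1
    rw [hevh] at h0
    have h2 := congrArg (fun q : Polynomial ℂ => q.coeff n) h0
    simp only [Polynomial.coeff_map, Polynomial.coeff_zero] at h2
    exact h2
  · have h1 : ((Polynomial.derivative (P0 j) * P0 k - P0 j * Polynomial.derivative (P0 k)).map
        (h : A →+* ℂ)) = 0 := by
      rw [Polynomial.map_sub, Polynomial.map_mul, Polynomial.map_mul, ← Polynomial.derivative_map,
        ← Polynomial.derivative_map, hc, sub_self]
    have h2 := congrArg (fun q : Polynomial ℂ => q.coeff n') h1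
    simp only [Polynomial.coeff_map, Polynomial.coeff_zero] at h2
    exact h2

end Pool.Agent.H60W
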