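import Mathlib
import Pool.Agent.N131.SU.Fin
import Pool.Agent.H60W.Los
import Pool.Agent.H60W.Spz

/-!
The bound for entire curves with few zeros of the Wronskian, uniformly for all quasi-projective
varieties of bounded degree.
-/

set_option autoImplicit false

namespace Pool.Agent.H60W

open MeasureTheory Set Filter Topology Metric Real ValueDistribution MeromorphicOn Function
open Asymptotics MvPolynomial
open Pool.Agent.Y377.EL Pool.Agent.Y377.IL
open Pool.Agent.N131.SU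
open Pool.Agent.N131.SR (Wr Wr_diff Tf diff_mero diff_ne form_diff ratio_le exists_index Big Datum
  img img_diff Nb Nb_nonneg exists_big eval_img src_ne Tf_le)
open Pool.Agent.W602.GT (IsForm)

variable {M N n e : ℕ}

/-- complements of hypersurfaces which vary with the index -/
theorem log_seqV (σ : ℂ ≃+* CS) {P : (Pt → ℂ) → Prop} (HP : Cl P)
    {f : Fin (N + 1) → Pt → ℂ} {l : Fin (N + 1)}
    (hl0 : ∀ᶠ p in cod, f l p ≠ 0) {Q : MvPolynomial (Fin (N + 1)) ℂ}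
    {Qk : ℕ → MvPolynomial (Fin (N + 1)) ℂ} {d : ℕ} (hd : 0 < d)
    (hQ : Q.IsHomogeneous d) (hQk : ∀ k, (Qk k).IsHomogeneous d)
    (hQσ : ∀ᶠ k in (U : Filter ℕ), N131.SU.sq σ Q k = Qk k)
    (hX : ∀ᶠ p in cod, eval (fun j => f j p) (Qk p.1) ≠ 0)
    (hl : ∀ α : Fin (N + 1) →₀ ℕ, ∑ j, α j = d →
      IterS P fun p => (∏ j, f j p ^ α j) / eval (fun j => f j p) (Qk p.1)) :
    (∀ j, AlgRatioS P (f j) (f l)) ∨
      ∃ x : Fin (N + 1) → KS σ, (∀ G : MvPolynomial (Fin (N + 1)) ℂ,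
        (∃ e, G.IsHomogeneous e) → (aeval x G = 0 ↔ VanS σ f G)) ∧ PFam x Q := by
  classical
  have hQc : ∀ᶠ p in cod, N131.SU.sq σ Q p.1 = Qk p.1 := by
    rw [ev_cod]
    exact hQσ.mono fun k hk => Eventually.of_forall fun _ => hk
  let α : Fin (N + 1) → Fin (N + 1) →₀ ℕ := fun j => Finsupp.single j 1 + Finsupp.single l (d - 1)
  have hα : ∀ j, ∑ i, α j i = d := by
    intro j
    rw [sum_two]
    omega
  let h : Fin (N + 1) → Pt → ℂ := fun j p => (∏ i, f i p ^ α j i) / eval (fun i => f i p) (Qk p.1)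
  let c : Pt → ℂ := fun p => f l p ^ (d - 1) / eval (fun i => f i p) (Qk p.1)
  have hh : ∀ j p, h j p = c p * f j p := by
    intro j p
    change (∏ i, f i p ^ α j i) / eval (fun i => f i p) (Qk p.1) =
      f l p ^ (d - 1) / eval (fun i => f i p) (Qk p.1) * f j p
    rw [prod_two (fun i => f i p)]
    ring
  have hc : ∀ᶠ p in cod, c p ≠ 0 := by
    filter_upwards [hl0, hX] with p h1 h2
    exact div_ne_zero (pow_ne_zero _ h1) h2
  let A : Finset (Fin (N + 1) →₀ ℕ) := Finset.univ.finsuppAntidiag d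
  have hA : ∀ β : Fin (N + 1) →₀ ℕ, β ∈ A ↔ ∑ j, β j = d := by
    intro β
    rw [Finset.mem_finsuppAntidiag]
    exact ⟨fun h1 => h1.1, fun h1 => ⟨h1, Finset.subset_univ _⟩⟩
  obtain ⟨z0, F, R, hS, han, hz2, hk⟩ := exists_spt σ HP hc hh (fun j => hl (α j) (hα j)) hl0
    (ι := A) (k := fun β p => (∏ j, f j p ^ β.1 j) / eval (fun j => f j p) (Qk p.1))
    (fun β => hl β.1 ((hA β.1).1 β.2)) (hX.and (hc.and hQc))
  obtain ⟨D, hp⟩ := hS.pnt
  set x : Fin (N + 1) → KS σ := fun j => tys σ z0 (h j) with hx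
  have hQx : aeval x Q ≠ 0 := by
    rw [Ne, hS.val Q ⟨d, hQ⟩]
    intro h0
    obtain ⟨p, h1, h2, h3⟩ := (h0.and (hX.and hQc)).exists
    rw [h3] at h1
    exact h2 h1
  have hreg : ∀ β : Fin (N + 1) →₀ ℕ, ∑ j, β j = d → (∏ j, x j ^ β j) / aeval x Q ∈ R := by
    intro β hβ
    obtain ⟨k1, k2⟩ := hk ⟨β, (hA β).2 hβ⟩
    have h5 : (∏ j, x j ^ β j) / aeval x Q =
        tys σ z0 fun p => (∏ j, f j p ^ β j) / eval (fun j => f j p) (Qk p.1) := by
      rw [div_eq_iff hQx]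
      obtain ⟨a2, b2⟩ := tys_eval (σ := σ) hT han Q
      obtain ⟨a1, b1⟩ := anS_prod (σ := σ) hT Finset.univ (a := fun j p => h j p ^ β j)
        fun j => (anS_pow (σ := σ) hT (han j) (β j)).1
      have e1 : ∏ j, x j ^ β j = tys σ z0 fun p => ∏ j, h j p ^ β j := by
        rw [b1]
        exact Finset.prod_congr rfl fun j _ => (anS_pow hT (han j) (β j)).2.symm
      have e2 : aeval x Q = tys σ z0 fun p => eval (fun j => h j p) (N131.SU.sq σ Q p.1) := b2.symm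
      rw [e1, e2, ← tys_mul hT k1 a2]
      apply tys_congr hT
      filter_upwards [hz2] with k hk
      filter_upwards [hk] with z hz
      obtain ⟨h1, h2, h3⟩ := hz
      have h4 : N131.SU.sq σ Q k = Qk k := h3
      change ∏ j, h j (k, z) ^ β j = (∏ j, f j (k, z) ^ β j) / eval (fun j => f j (k, z)) (Qk k) *
        eval (fun j => h j (k, z)) (N131.SU.sq σ Q k)
      have h6 : (fun j => h j (k, z)) = fun j => c (k, z) * f j (k, z) :=
        funext fun j => hh j (k, z)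
      have h1' : eval (fun j => f j (k, z)) (Qk k) ≠ 0 := h1
      rw [h4, h6, eval_scale (hQk k)]
      simp only [hh, mul_pow, Finset.prod_mul_distrib]
      rw [Finset.prod_pow_eq_pow_sum, hβ]
      field_simp
    rw [h5]
    exact k2
  rcases hp.log hd hQ hQx hreg with h1 | h1
  · exact Or.inl fun j => hS.coord (h1 j)
  · exact Or.inr ⟨x, hS.val, h1⟩

section

variable (c : ℕ → Crv M N n e) {L : ℕ → Filter ℝ} {τ : ℕ × ℝ → ℝ}

/-- the regular functions, for varying hypersurfaces -/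
theorem seq_logV (H : Cmp L τ) (hT : LO L τ (Tfs (Gs c))) {Q : ℕ → MvPolynomial (Fin (N + 1)) ℂ}
    {d : ℕ} (hd : 0 < d) (hQ : ∀ k, (Q k).IsHomogeneous d)
    (hq0 : ∀ k, ∃ z, eval (fun j => (c k).f j z) (Q k) ≠ 0)
    (hNW : Nbs (Wrs (gs c)) =o[Lf L] τ)
    (hNq : Nbs (fun p => eval (fun j => fs c j p) (Q p.1)) =o[Lf L] τ)
    (α : Fin (N + 1) →₀ ℕ) (hα : ∑ j, α j = d) :
    IterS (Sm L τ) fun p => (∏ j, fs c j p ^ α j) / eval (fun j => fs c j p) (Q p.1) := by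
  obtain ⟨a, b, ha, hb, hgd, hW⟩ := seq_data c
  have he : 0 < e := (c 0).D.he
  have hev : ∀ p : Pt, eval (fun k => Gs c k p) (aeval (c p.1).P (Q p.1)) =
      eval (fun j => fs c j p) (Q p.1) := fun p => fs_eval c p (Q p.1)
  have h1 := reg_iter (Q := fun k => aeval (c k).P (Q k)) H hT (Gs_ent c) (Gs_ne c)
    (Nat.mul_pos he hd) (fun k => (hQ k).aeval _ (c k).D.hP) (fun k => by
      obtain ⟨z, hz⟩ := hq0 k
      refine ⟨z, ?_⟩
      have h2 := hev (k, z)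
      change eval (fun j => Gs c j (k, z)) (aeval (c k).P (Q k)) ≠ 0
      rw [h2]
      exact hz) hgd ha hb hW hNW (by
      simp only [hev]
      exact hNq)
  have h2 := form_iter (cl_sm H) h1 (F := fun k => ∏ j, (c k).P j ^ α j) (fun k => by
    have h3 : e * d = ∑ j, e * α j := by rw [← hα, Finset.mul_sum]
    rw [h3]
    exact IsHomogeneous.prod _ _ _ fun j _ => ((c k).D.hP j).pow _)
  simp only [hev] at h2
  have h3 : (fun z : Pt => eval (fun k => Gs c k z) (∏ j, (c z.1).P j ^ α j) /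
      eval (fun j => fs c j z) (Q z.1)) =
      fun z => (∏ j, fs c j z ^ α j) / eval (fun j => fs c j z) (Q z.1) := by
    funext z
    rw [map_prod]
    simp only [map_pow]
    rfl
  rwa [h3] at h2

end

/-- a curve in a quasi-projective variety, with a hypersurface which does not contain it -/
structure Sys (M N n e s : ℕ) (dF : Fin s → ℕ) (q a : ℕ) where
  F : Fin s → MvPolynomial (Fin (N + 1)) ℂ
  hF : ∀ i, (F i).IsHomogeneous (dF i)
  Q : MvPolynomial (Fin (N + 1)) ℂ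
  hQ : Q.IsHomogeneous q
  A : MvPolynomial (Fin (N + 1)) ℂ
  hA : A.IsHomogeneous a
  c : Crv M N n e
  hon : ∀ i z, eval (fun j => c.f j z) (F i) = 0
  hoff : ∃ z, eval (fun j => c.f j z) Q ≠ 0
  hoffA : ∃ z, eval (fun j => c.f j z) A ≠ 0

/-- a punctured rational curve of degree at most `B` on which `A` does not vanish -/
def GmA {s : ℕ} (F : Fin s → MvPolynomial (Fin (N + 1)) ℂ) (Q A : MvPolynomial (Fin (N + 1)) ℂ)
    (B : ℕ) (p : Fin (N + 1) → Polynomial ℂ) : Prop :=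
  (∀ j, (p j).natDegree ≤ B) ∧ (∀ i, aeval p (F i) = 0) ∧
    (∃ (c : ℂ) (k : ℕ), c ≠ 0 ∧ aeval p Q = Polynomial.C c * Polynomial.X ^ k) ∧
    aeval p A ≠ 0 ∧
    ∃ j k, Polynomial.derivative (p j) * p k ≠ p j * Polynomial.derivative (p k)

/-- **The uniform bound.** -/
theorem fam_ub (M N n e s : ℕ) (dF : Fin s → ℕ) (q a : ℕ) : ∃ (B : ℕ) (C : ℝ),
    ∀ y : Sys M N n e s dF q a, (∀ p, ¬ GmA y.F y.Q y.A B p) →
      ∃ E : Set ℝ, volume E < ⊤ ∧ ∀ r, 1 ≤ r → r ∉ E →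
        Tf y.c.f r ≤ C * y.c.X (fun z => eval (fun j => y.c.f j z) y.Q) r := by
  classical
  by_contra hcon
  push Not at hcon
  obtain ⟨y, L, hZ, h2, h3, h4⟩ := eng (ι := Sys M N n e s dF q a) (S := fun y => Tf y.c.f)
    (X := fun y => y.c.X (fun z => eval (fun j => y.c.f j z) y.Q)) (fun y r hr => y.c.X_ge _ r hr)
    (Z := fun B y => ∀ p, ¬ GmA y.F y.Q y.A B p) (fun B hno => by
      obtain ⟨C, hC⟩ := hno
      obtain ⟨y, hy1, hy2⟩ := hcon B C
      obtain ⟨E, hE, hb⟩ := hC y hy1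
      obtain ⟨r, hr1, hr2, hr3⟩ := hy2 E hE
      exact absurd (hb r hr1 hr2) (not_le.2 hr3))
  set c : ℕ → Crv M N n e := fun k => (y k).c with hc
  set Q : ℕ → MvPolynomial (Fin (N + 1)) ℂ := fun k => (y k).Q with hQd
  have h5 : ∀ᶠ p : ℕ × ℝ in Lf L, 0 ≤ Nb (Wr (c p.1).g) p.2 ∧
      0 ≤ Nb (fun z => eval (fun j => (c p.1).f j z) (Q p.1)) p.2 ∧
      0 ≤ Real.log p.2 ∧ 0 ≤ Real.log (1 + |Tf (c p.1).G p.2|) := h4.mono fun p hp =>
    ⟨Nb_nonneg hp.1, Nb_nonneg hp.1, Real.log_nonneg hp.1,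
      Real.log_nonneg (by linarith [abs_nonneg (Tf (c p.1).G p.2)])⟩
  have hXd : ∀ p : ℕ × ℝ, (c p.1).X (fun z => eval (fun j => (c p.1).f j z) (Q p.1)) p.2 =
    Nb (Wr (c p.1).g) p.2 + Nb (fun z => eval (fun j => (c p.1).f j z) (Q p.1)) p.2 +
      Real.log p.2 + Real.log (1 + |Tf (c p.1).G p.2|) := fun p => rfl
  have hT' : LO L (fun p => Tf (c p.1).f p.2) (Tfs (Gs c)) := by
    refine o_of_ev (h5.mono fun p hp => ?_) h3
    refine ⟨hp.2.2.2, ?_⟩
    change Real.log (1 + |Tf (c p.1).G p.2|) ≤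
      (c p.1).X (fun z => eval (fun j => (c p.1).f j z) (Q p.1)) p.2
    rw [hXd]
    linarith [hp.1, hp.2.1, hp.2.2.1]
  have hNW : Nbs (Wrs (gs c)) =o[Lf L] (fun p => Tf (c p.1).f p.2) := by
    refine o_of_ev (h5.mono fun p hp => ?_) h3
    refine ⟨hp.1, ?_⟩
    change Nb (Wr (c p.1).g) p.2 ≤
      (c p.1).X (fun z => eval (fun j => (c p.1).f j z) (Q p.1)) p.2
    rw [hXd]
    linarith [hp.2.2.2, hp.2.1, hp.2.2.1]
  have hNq : Nbs (fun p => eval (fun j => fs c j p) (Q p.1)) =o[Lf L]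
      (fun p => Tf (c p.1).f p.2) := by
    refine o_of_ev (h5.mono fun p hp => ?_) h3
    refine ⟨hp.2.1, ?_⟩
    change Nb (fun z => eval (fun j => (c p.1).f j z) (Q p.1)) p.2 ≤
      (c p.1).X (fun z => eval (fun j => (c p.1).f j z) (Q p.1)) p.2
    rw [hXd]
    linarith [hp.2.2.2, hp.1, hp.2.2.1]
  obtain ⟨σ, -⟩ := exists_iso (S := ∅) Set.countable_empty
  have hlF := fun i => exists_lim σ (fun k => (y k).F i) (fun k => (y k).hF i)
  choose F' hF'h hF' using hlF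
  obtain ⟨Q', hQ'h, hQ'⟩ := exists_lim σ Q (fun k => (y k).hQ)
  obtain ⟨A', hA'h, hA'⟩ := exists_lim σ (fun k => (y k).A) (fun k => (y k).hA)
  have hq0 : ∀ k, ∃ z, eval (fun j => (c k).f j z) (Q k) ≠ 0 := fun k => (y k).hoff
  obtain ⟨l, hl⟩ := ev_index (P := fun l k => ∃ z, fs c l (k, z) ≠ 0)
    fun k => (fs_ne c (k, 0)).imp fun l hl => ⟨0, hl⟩
  have hlne : ∀ᶠ z in cod, fs c l z ≠ 0 := ent_ne (fs_ent c l) hl
  obtain ⟨x, hx, hPF⟩ : ∃ x : Fin (N + 1) → KS σ, (∀ G : MvPolynomial (Fin (N + 1)) ℂ,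
        (∃ e, G.IsHomogeneous e) → (aeval x G = 0 ↔ VanS σ (fs c) G)) ∧ PFam x Q' := by
    rcases Nat.eq_zero_or_pos q with hd | hd
    · subst hd
      obtain ⟨b, rfl⟩ := N131.SR.const_form hQ'h
      have hb : b ≠ 0 := by
        rintro rfl
        obtain ⟨k, hk⟩ := hQ'.exists
        obtain ⟨z, hz⟩ := hq0 k
        apply hz
        rw [← hk]
        have h7 : N131.SU.sq σ (C 0 : MvPolynomial (Fin (N + 1)) ℂ) k = 0 := by
          unfold N131.SU.sq
          rw [map_zero, MvPolynomial.support_zero, Finset.sum_empty]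
        rw [h7, map_zero]
      obtain ⟨u, hu, hit⟩ := seq_coord c h2 hT' hNW
      rcases proj_seq σ (cl_sm h2) hu (fun j p => rfl) hit hlne hb with h7 | h7
      · exact (not_alg c h2 h4 hl h7).elim
      · exact h7
    · have hX : ∀ᶠ p in cod, eval (fun j => fs c j p) (Q p.1) ≠ 0 :=
        ent_ne (form_ent (fs_ent c) Q) (Eventually.of_forall hq0)
      rcases log_seqV σ (cl_sm h2) hlne hd hQ'h (fun k => (y k).hQ) hQ' hX
        (fun α hα => seq_logV c h2 hT' hd (fun k => (y k).hQ) hq0 hNW hNq α hα) with h7 | h7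
      · exact (not_alg c h2 h4 hl h7).elim
      · exact h7
  obtain ⟨M', i1, i2, P, hPx, ⟨b, m, hb, hbm⟩, j1, j2, hj⟩ := hPF
  have hF0 : ∀ i, aeval P (F' i) = 0 := by
    intro i
    rw [hPx _ ⟨_, hF'h i⟩, hx _ ⟨_, hF'h i⟩]
    unfold VanS
    rw [ev_cod]
    filter_upwards [hF' i] with k hk
    refine Eventually.of_forall fun z => ?_
    change eval (fun j => (c k).f j z) (N131.SU.sq σ (F' i) k) = 0
    rw [hk]
    exact (y k).hon i z
  have hA0 : aeval P A' ≠ 0 := by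
    rw [Ne, hPx _ ⟨_, hA'h⟩, hx _ ⟨_, hA'h⟩]
    intro h7
    have h8 : ∀ᶠ p in cod, eval (fun j => fs c j p) (y p.1).A ≠ 0 :=
      ent_ne (form_ent (fs_ent c) fun k => (y k).A) (Eventually.of_forall fun k => (y k).hoffA)
    have h9 : ∀ᶠ p in cod, N131.SU.sq σ A' p.1 = (y p.1).A := by
      rw [ev_cod]
      exact hA'.mono fun k hk => Eventually.of_forall fun _ => hk
    obtain ⟨p, h10, h11, h12⟩ := (h7.and (h8.and h9)).exists
    rw [h12] at h10
    exact h11 h10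
  obtain ⟨p, hp1, hp2, ⟨b', hb', hp3⟩, hp4, hp5⟩ := spz hF0 hb hbm hA0 hj
  have key := transfer σ p hp2 hb' hp3 hp4 hp5
  set D : ℕ := Finset.univ.sup fun j => (p j).natDegree with hD
  have hge : ∀ᶠ k in (U : Filter ℕ), D ≤ k := Nat.hyperfilter_le_atTop (eventually_ge_atTop D)
  have hFall : ∀ᶠ k in (U : Filter ℕ), ∀ i, N131.SU.sq σ (F' i) k = (y k).F i :=
    eventually_all.2 hF'
  obtain ⟨k, ⟨R, r1, r2, ⟨b'', r3, r4⟩, r5, r6⟩, hk1, hk2, hk3, hk4⟩ :=
    (key.and (hge.and (hFall.and (hQ'.and hA')))).exists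
  refine hZ k R ⟨fun j => (r1 j).trans (le_trans ?_ hk1), fun i => ?_, ⟨b'', m, r3, ?_⟩, ?_,
    j1, j2, r6⟩
  · exact Finset.le_sup (f := fun j => (p j).natDegree) (Finset.mem_univ j)
  · rw [← hk2 i]
    exact r2 i
  · rw [← r4, hk3]
  · rw [← hk4]
    exact r5

end Pool.Agent.H60W
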