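import Mathlib
import Pool.Agent.H60W.Fam
import Pool.Agent.H60W.Chev

/-!
Entire curves with few zeros of the Wronskian and punctured rational curves of bounded degree
through their points.
-/

set_option autoImplicit false

namespace Pool.Agent.H60W

open MeasureTheory Set Filter Topology MvPolynomial Asymptotics
open Pool.Agent.N131.SU
open Pool.Agent.N131.SR (Wr Tf diff_ne Nb Nb_nonneg)
open Pool.Agent.W602.GT (IsForm)

variable {N : ℕ}

section

variable (σ : ℂ ≃+* CS)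

/-- forms at a point given by a sequence -/
theorem los_eval {v : Fin (N + 1) → ℂ} {w : Fin (N + 1) → ℕ → ℂ} (hw : ∀ i, σ (v i) = gc (w i))
    (G : MvPolynomial (Fin (N + 1)) ℂ) : eval v G = 0 ↔
      ∀ᶠ k in (U : Filter ℕ), eval (fun i => w i k) (N131.SU.sq σ G k) = 0 := by
  set u : ℕ → ℂ := eval₂ (RingHom.id (ℕ → ℂ)) w (upM σ G) with hu
  have h1 : gc u = σ (eval v G) := by
    rw [hu, eval₂_comp_left, RingHom.comp_id]
    have h2 : (gc ∘ w : Fin (N + 1) → CS) = fun i => σ (v i) := funext fun i => (hw i).symm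
    rw [h2]
    have h3 : eval₂ gc (fun i => σ (v i)) (upM σ G) =
        eval (fun i => σ (v i)) (MvPolynomial.map gc (upM σ G)) := (eval_map _ _ _).symm
    rw [h3, upM_gc, eval_map]
    have h4 := eval₂_comp_left (σ : ℂ →+* CS) (RingHom.id ℂ) v G
    rw [RingHom.comp_id] at h4
    exact h4.symm
  have h5 : ∀ k, u k = eval (fun i => w i k) (N131.SU.sq σ G k) := by
    intro k
    have h6 := eval₂_comp_left (evI k) (RingHom.id (ℕ → ℂ)) w (upM σ G)
    rw [RingHom.comp_id] at h6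
    rw [← upM_ev, eval_map]
    exact h6
  rw [← map_eq_zero_iff σ σ.injective, ← h1, ← map_zero gc, gc_eq]
  refine eventually_congr (Eventually.of_forall fun k => ?_)
  rw [h5]
  rfl

/-- **Transfer of a polynomial curve through a point.** -/
theorem transferP {κ : Type} [Finite κ] (p : Fin (N + 1) → Polynomial ℂ)
    {F : κ → MvPolynomial (Fin (N + 1)) ℂ} (hF : ∀ i, aeval p (F i) = 0)
    {Q : MvPolynomial (Fin (N + 1)) ℂ} {c : ℂ} {m : ℕ} (hc : c ≠ 0)
    (hQ : aeval p Q = Polynomial.C c * Polynomial.X ^ m)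
    {j l : Fin (N + 1)} (hjl : Polynomial.derivative (p j) * p l ≠
      p j * Polynomial.derivative (p l)) {v : Fin (N + 1) → ℂ} (hv : ∀ i, (p i).eval 1 = v i)
    {w : Fin (N + 1) → ℕ → ℂ} (hw : ∀ i, σ (v i) = gc (w i)) :
    ∀ᶠ k in (U : Filter ℕ), ∃ P : Fin (N + 1) → Polynomial ℂ,
      (∀ i, (P i).natDegree ≤ (p i).natDegree) ∧ (∀ i, aeval P (N131.SU.sq σ (F i) k) = 0) ∧
      (∃ c : ℂ, c ≠ 0 ∧ aeval P (N131.SU.sq σ Q k) = Polynomial.C c * Polynomial.X ^ m) ∧
      Polynomial.derivative (P j) * P l ≠ P j * Polynomial.derivative (P l) ∧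
      ∀ i, (P i).eval 1 = w i k := by
  have hinj : Function.Injective (Polynomial.map (σ : ℂ →+* CS)) :=
    Polynomial.map_injective _ σ.injective
  have e1 : ∀ᶠ k in (U : Filter ℕ), ∀ i,
      aeval (fun j => (up σ (p j)).map (evI k)) (N131.SU.sq σ (F i) k) = 0 := by
    rw [eventually_all]
    intro i
    have h1 : (aeval (fun j => up σ (p j)) (upM σ (F i)) : Polynomial (ℕ → ℂ)).map gc =
        (0 : Polynomial (ℕ → ℂ)).map gc := by
      rw [ev_gc, hF, Polynomial.map_zero, Polynomial.map_zero]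
    filter_upwards [los.1 h1] with k hk
    rw [ev_ev, Polynomial.map_zero] at hk
    exact hk
  have e2 : ∀ᶠ k in (U : Filter ℕ), aeval (fun j => (up σ (p j)).map (evI k))
      (N131.SU.sq σ Q k) = Polynomial.C (rp σ c k) * Polynomial.X ^ m := by
    have h1 : (aeval (fun j => up σ (p j)) (upM σ Q) : Polynomial (ℕ → ℂ)).map gc =
        (Polynomial.C (rp σ c) * Polynomial.X ^ m : Polynomial (ℕ → ℂ)).map gc := by
      rw [ev_gc, hQ, Polynomial.map_mul, Polynomial.map_mul, Polynomial.map_pow,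
        Polynomial.map_pow, Polynomial.map_X, Polynomial.map_X, Polynomial.map_C,
        Polynomial.map_C]
      congr 2
      exact rp_spec _
    filter_upwards [los.1 h1] with k hk
    rw [ev_ev, Polynomial.map_mul, Polynomial.map_pow, Polynomial.map_X, Polynomial.map_C] at hk
    exact hk
  have e3 : ∀ᶠ k in (U : Filter ℕ), rp σ c k ≠ 0 := by
    have h1 : ¬ ∀ᶠ k in (U : Filter ℕ), rp σ c k = 0 := by
      intro h2
      have h3 : gc (rp σ c) = gc 0 := gc_eq.2 h2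
      rw [← rp_spec, map_zero, map_eq_zero_iff σ σ.injective] at h3
      exact hc h3
    exact Ultrafilter.eventually_not.2 h1
  have e5 : ∀ᶠ k in (U : Filter ℕ),
      Polynomial.derivative ((up σ (p j)).map (evI k)) * (up σ (p l)).map (evI k) ≠
        (up σ (p j)).map (evI k) * Polynomial.derivative ((up σ (p l)).map (evI k)) := by
    have h1 : (Polynomial.derivative (up σ (p j)) * up σ (p l)).map gc ≠
        (up σ (p j) * Polynomial.derivative (up σ (p l))).map gc := by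
      rw [Polynomial.map_mul, Polynomial.map_mul, ← Polynomial.derivative_map,
        ← Polynomial.derivative_map, up_gc, up_gc, Polynomial.derivative_map,
        Polynomial.derivative_map, ← Polynomial.map_mul, ← Polynomial.map_mul]
      exact fun h2 => hjl (hinj h2)
    filter_upwards [los_ne h1] with k hk
    rw [Polynomial.map_mul, Polynomial.map_mul, ← Polynomial.derivative_map,
      ← Polynomial.derivative_map] at hk
    exact hk
  have e6 : ∀ᶠ k in (U : Filter ℕ), ∀ i, ((up σ (p i)).map (evI k)).eval 1 = w i k := by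
    rw [eventually_all]
    intro i
    have h1 : gc ((up σ (p i)).eval 1) = gc (w i) := by
      rw [← Polynomial.eval_one_map, up_gc, Polynomial.eval_one_map, hv, ← hw]
      rfl
    filter_upwards [gc_eq.1 h1] with k hk
    rw [Polynomial.eval_one_map, evI_apply]
    exact hk
  filter_upwards [e1, e2, e3, e5, e6] with k h1 h2 h3 h5 h6
  exact ⟨fun j => (up σ (p j)).map (evI k), fun i =>
    Polynomial.natDegree_map_le.trans (up_deg σ (p i)), h1, ⟨_, h3, h2⟩, h5, h6⟩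

end

/-- a curve in a quasi-projective variety -/
structure Sys2 (M N n e s : ℕ) (dF : Fin s → ℕ) (q : ℕ) where
  F : Fin s → MvPolynomial (Fin (N + 1)) ℂ
  hF : ∀ i, (F i).IsHomogeneous (dF i)
  Q : MvPolynomial (Fin (N + 1)) ℂ
  hQ : Q.IsHomogeneous q
  c : Crv M N n e
  hon : ∀ i z, eval (fun j => c.f j z) (F i) = 0
  hoff : ∃ z, eval (fun j => c.f j z) Q ≠ 0

/-- a punctured rational curve of degree at most `B` through `v` -/
def GmV {s : ℕ} (F : Fin s → MvPolynomial (Fin (N + 1)) ℂ) (Q : MvPolynomial (Fin (N + 1)) ℂ)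
    (B : ℕ) (v : Fin (N + 1) → ℂ) (p : Fin (N + 1) → Polynomial ℂ) : Prop :=
  (∀ j, (p j).natDegree ≤ B) ∧ (∀ i, aeval p (F i) = 0) ∧
    (∃ (c : ℂ) (k : ℕ), c ≠ 0 ∧ aeval p Q = Polynomial.C c * Polynomial.X ^ k) ∧
    (∃ j k, Polynomial.derivative (p j) * p k ≠ p j * Polynomial.derivative (p k)) ∧
    ∀ j, (p j).eval 1 = v j

/-- **The dichotomy.** -/
theorem fam_dich (M N n e s : ℕ) (dF : Fin s → ℕ) (q : ℕ) : ∃ (B : ℕ) (C : ℝ),
    ∀ y : Sys2 M N n e s dF q,
      (∃ᶠ z in codiscrete ℂ, ∀ p, ¬ GmV y.F y.Q B (fun j => y.c.f j z) p) →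
      ∃ E : Set ℝ, volume E < ⊤ ∧ ∀ r, 1 ≤ r → r ∉ E →
        Tf y.c.f r ≤ C * y.c.X (fun z => eval (fun j => y.c.f j z) y.Q) r := by
  classical
  by_contra hcon
  push Not at hcon
  obtain ⟨y, L, hZ, h2, h3, h4⟩ := eng (ι := Sys2 M N n e s dF q) (S := fun y => Tf y.c.f)
    (X := fun y => y.c.X (fun z => eval (fun j => y.c.f j z) y.Q)) (fun y r hr => y.c.X_ge _ r hr)
    (Z := fun B y => ∃ᶠ z in codiscrete ℂ, ∀ p, ¬ GmV y.F y.Q B (fun j => y.c.f j z) p)
    (fun B hno => by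
      obtain ⟨C, hC⟩ := hno
      obtain ⟨y, hy1, hy2⟩ := hcon B C
      obtain ⟨E, hE, hb⟩ := hC y hy1
      obtain ⟨r, hr1, hr2, hr3⟩ := hy2 E hE
      exact absurd (hb r hr1 hr2) (not_le.2 hr3))
  set c : ℕ → Crv M N n e := fun k => (y k).c with hc
  set Q : ℕ → MvPolynomial (Fin (N + 1)) ℂ := fun k => (y k).Q with hQd
  have h5 : ∀ᶠ p : ℕ × ℝ in Lf L, 0 ≤ Nb (Wr (c p.1).g) p.2 ∧
      0 ≤ Nb (fun z => eval (fun j => (c p.1).f j z) (Q p.1)) p.2 ∧
      0 ≤ Real.log p.2 ∧ 0 ≤ Real.log (1 + |Tf (c p.1).G p.2|) := h4.mono fun p hp =>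
    ⟨Nb_nonneg hp.1, Nb_nonneg hp.1, Real.log_nonneg hp.1,
      Real.log_nonneg (by linarith [abs_nonneg (Tf (c p.1).G p.2)])⟩
  have hXd : ∀ p : ℕ × ℝ, (c p.1).X (fun z => eval (fun j => (c p.1).f j z) (Q p.1)) p.2 =
    Nb (Wr (c p.1).g) p.2 + Nb (fun z => eval (fun j => (c p.1).f j z) (Q p.1)) p.2 +
      Real.log p.2 + Real.log (1 + |Tf (c p.1).G p.2|) := fun p => rfl
  have hT' : LO L (fun p => Tf (c p.1).f p.2) (Tfs (Gs c)) := by
    refine o_of_ev (h5.mono fun p hp => ?_) h3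
    refine ⟨hp.2.2.2, ?_⟩
    change Real.log (1 + |Tf (c p.1).G p.2|) ≤
      (c p.1).X (fun z => eval (fun j => (c p.1).f j z) (Q p.1)) p.2
    rw [hXd]
    linarith [hp.1, hp.2.1, hp.2.2.1]
  have hNW : Nbs (Wrs (gs c)) =o[Lf L] (fun p => Tf (c p.1).f p.2) := by
    refine o_of_ev (h5.mono fun p hp => ?_) h3
    refine ⟨hp.1, ?_⟩
    change Nb (Wr (c p.1).g) p.2 ≤
      (c p.1).X (fun z => eval (fun j => (c p.1).f j z) (Q p.1)) p.2
    rw [hXd]
    linarith [hp.2.2.2, hp.2.1, hp.2.2.1]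
  have hNq : Nbs (fun p => eval (fun j => fs c j p) (Q p.1)) =o[Lf L]
      (fun p => Tf (c p.1).f p.2) := by
    refine o_of_ev (h5.mono fun p hp => ?_) h3
    refine ⟨hp.2.1, ?_⟩
    change Nb (fun z => eval (fun j => (c p.1).f j z) (Q p.1)) p.2 ≤
      (c p.1).X (fun z => eval (fun j => (c p.1).f j z) (Q p.1)) p.2
    rw [hXd]
    linarith [hp.2.2.2, hp.1, hp.2.2.1]
  obtain ⟨σ, -⟩ := exists_iso (S := ∅) Set.countable_empty
  have hlF := fun i => exists_lim σ (fun k => (y k).F i) (fun k => (y k).hF i)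
  choose F' hF'h hF' using hlF
  obtain ⟨Q', hQ'h, hQ'⟩ := exists_lim σ Q (fun k => (y k).hQ)
  have hq0 : ∀ k, ∃ z, eval (fun j => (c k).f j z) (Q k) ≠ 0 := fun k => (y k).hoff
  obtain ⟨l, hl⟩ := ev_index (P := fun l k => ∃ z, fs c l (k, z) ≠ 0)
    fun k => (fs_ne c (k, 0)).imp fun l hl => ⟨0, hl⟩
  have hlne : ∀ᶠ z in cod, fs c l z ≠ 0 := ent_ne (fs_ent c l) hl
  obtain ⟨x, hx, hPF⟩ : ∃ x : Fin (N + 1) → KS σ, (∀ G : MvPolynomial (Fin (N + 1)) ℂ,
        (∃ e, G.IsHomogeneous e) → (aeval x G = 0 ↔ VanS σ (fs c) G)) ∧ PFam x Q' := by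
    rcases Nat.eq_zero_or_pos q with hd | hd
    · subst hd
      obtain ⟨b, rfl⟩ := N131.SR.const_form hQ'h
      have hb : b ≠ 0 := by
        rintro rfl
        obtain ⟨k, hk⟩ := hQ'.exists
        obtain ⟨z, hz⟩ := hq0 k
        apply hz
        rw [← hk]
        have h7 : N131.SU.sq σ (C 0 : MvPolynomial (Fin (N + 1)) ℂ) k = 0 := by
          unfold N131.SU.sq
          rw [map_zero, MvPolynomial.support_zero, Finset.sum_empty]
        rw [h7, map_zero]
      obtain ⟨u, hu, hit⟩ := seq_coord c h2 hT' hNW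
      rcases proj_seq σ (cl_sm h2) hu (fun j p => rfl) hit hlne hb with h7 | h7
      · exact (not_alg c h2 h4 hl h7).elim
      · exact h7
    · have hX : ∀ᶠ p in cod, eval (fun j => fs c j p) (Q p.1) ≠ 0 :=
        ent_ne (form_ent (fs_ent c) Q) (Eventually.of_forall hq0)
      rcases log_seqV σ (cl_sm h2) hlne hd hQ'h (fun k => (y k).hQ) hQ' hX
        (fun α hα => seq_logV c h2 hT' hd (fun k => (y k).hQ) hq0 hNW hNq α hα) with h7 | h7
      · exact (not_alg c h2 h4 hl h7).elim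
      · exact h7
  obtain ⟨M', i1, i2, P, hPx, ⟨b, m, hb, hbm⟩, j1, j2, hj⟩ := hPF
  have hF0 : ∀ i, aeval P (F' i) = 0 := by
    intro i
    rw [hPx _ ⟨_, hF'h i⟩, hx _ ⟨_, hF'h i⟩]
    unfold VanS
    rw [ev_cod]
    filter_upwards [hF' i] with k hk
    refine Eventually.of_forall fun z => ?_
    change eval (fun j => (c k).f j z) (N131.SU.sq σ (F' i) k) = 0
    rw [hk]
    exact (y k).hon i z
  obtain ⟨H, m', T, hHh, hH0, hT, hcone⟩ := chev hF'h hQ'h hF0 hb hbm hj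
  -- the vanishing of forms
  have hvan : ∀ G : MvPolynomial (Fin (N + 1)) ℂ, IsForm G → (aeval P G = 0 ↔
      ∀ᶠ k in (U : Filter ℕ), ∀ z, eval (fun j => (c k).f j z) (N131.SU.sq σ G k) = 0) := by
    intro G hG
    rw [hPx G hG, hx G hG]
    exact ent_zero (form_ent (fs_ent c) fun k => N131.SU.sq σ G k)
  have hHk : ∀ᶠ k in (U : Filter ℕ), ∀ᶠ z in codiscrete ℂ,
      eval (fun j => (c k).f j z) (N131.SU.sq σ H k) ≠ 0 := by
    have h7 : ¬ ∀ᶠ k in (U : Filter ℕ), ∀ z,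
        eval (fun j => (c k).f j z) (N131.SU.sq σ H k) = 0 := fun h8 =>
      hH0 ((hvan H ⟨m', hHh⟩).2 h8)
    filter_upwards [Ultrafilter.eventually_not.2 h7] with k hk
    push Not at hk
    exact diff_ne (form_ent (fs_ent c) (fun k => N131.SU.sq σ H k) k) hk
  have hTk : ∀ᶠ k in (U : Filter ℕ), ∀ G ∈ T, ∀ z,
      eval (fun j => (c k).f j z) (N131.SU.sq σ G k) = 0 := by
    rw [eventually_all_finset]
    intro G hG
    exact (hvan G (hT G hG).1).1 (hT G hG).2
  have hz : ∀ k, ∃ z, (∀ p, ¬ GmV (y k).F (y k).Q k (fun j => (c k).f j z) p) ∧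
      ((∀ᶠ z in codiscrete ℂ, eval (fun j => (c k).f j z) (N131.SU.sq σ H k) ≠ 0) →
        eval (fun j => (c k).f j z) (N131.SU.sq σ H k) ≠ 0) := by
    intro k
    by_cases hk : ∀ᶠ z in codiscrete ℂ, eval (fun j => (c k).f j z) (N131.SU.sq σ H k) ≠ 0
    · obtain ⟨z, h7, h8⟩ := ((hZ k).and_eventually hk).exists
      exact ⟨z, h7, fun _ => h8⟩
    · obtain ⟨z, h7⟩ := (hZ k).exists
      exact ⟨z, h7, fun h8 => absurd h8 hk⟩
  choose z hz1 hz2 using hz
  set w : Fin (N + 1) → ℕ → ℂ := fun i k => (c k).f i (z k) with hw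
  set v : Fin (N + 1) → ℂ := fun i => σ.symm (gc (w i)) with hv
  have hvw : ∀ i, σ (v i) = gc (w i) := fun i => RingEquiv.apply_symm_apply σ _
  obtain ⟨p, hp1, hp2, ⟨b', hb', hp3⟩, hp5, hp6⟩ := hcone v (fun G hG => by
      rw [los_eval σ hvw]
      filter_upwards [hTk] with k hk
      exact hk G hG (z k)) (by
      rw [Ne, los_eval σ hvw, ← Ultrafilter.eventually_not]
      filter_upwards [hHk] with k hk
      exact hz2 k hk)
  have key := transferP σ p hp2 hb' hp3 hp5 hp6 hvw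
  set D : ℕ := Finset.univ.sup fun j => (p j).natDegree with hD
  have hge : ∀ᶠ k in (U : Filter ℕ), D ≤ k := Nat.hyperfilter_le_atTop (eventually_ge_atTop D)
  have hFall : ∀ᶠ k in (U : Filter ℕ), ∀ i, N131.SU.sq σ (F' i) k = (y k).F i :=
    eventually_all.2 hF'
  obtain ⟨k, ⟨R, r1, r2, ⟨b'', r3, r4⟩, r6, r7⟩, hk1, hk2, hk3⟩ :=
    (key.and (hge.and (hFall.and hQ'))).exists
  refine hz1 k R ⟨fun j => (r1 j).trans (le_trans ?_ hk1), fun i => ?_, ⟨b'', m, r3, ?_⟩,
    ⟨j1, j2, r6⟩, r7⟩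
  · exact Finset.le_sup (f := fun j => (p j).natDegree) (Finset.mem_univ j)
  · rw [← hk2 i]
    exact r2 i
  · rw [← r4, hk3]

end Pool.Agent.H60W
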