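import Mathlib
import Pool.Agent.H60W.Fam
import Pool.Agent.H60K.Sfin

/-!
Entire curves in hypersurfaces without punctured rational curves of bounded degree: bound by the
zeros of the Wronskian.
-/

set_option autoImplicit false

namespace Pool.Agent.H60W

open MeasureTheory Set Filter Topology MvPolynomial
open Pool.Agent.V1153.UG (GmBdd)
open Pool.Agent.Y377.IL (nonconst_of_wr')
open Pool.Agent.N131.SU (Crv)
open Pool.Agent.N131.SR (Tf Nb Wr Nb_nonneg Datum img)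

theorem gm_of_A {N : ℕ} {F : MvPolynomial (Fin (N + 1)) ℂ} {B : ℕ}
    {p : Fin (N + 1) → Polynomial ℂ} (h : GmA (fun _ : Fin 1 => F) 1 1 B p) :
    GmBdd (Ideal.span {F}) 1 B p := by
  obtain ⟨h1, h2, h3, -, h5⟩ := h
  refine ⟨h1, fun G hG _ => ?_, h3, ?_⟩
  · have h6 : Ideal.span {F} ≤ RingHom.ker
        (aeval p : MvPolynomial (Fin (N + 1)) ℂ →ₐ[ℂ] _) := by
      rw [Ideal.span_le, Set.singleton_subset_iff]
      exact h2 0
    exact h6 hG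
  · obtain ⟨s, t, j, k, -, -, hne⟩ := nonconst_of_wr' h5
    exact ⟨s, t, j, k, hne⟩

/-- the inequality with the logarithm of the radius -/
theorem hyp_raw (N d M e : ℕ) : ∃ (B : ℕ) (C : ℝ), 0 ≤ C ∧
    ∀ F : MvPolynomial (Fin (N + 1)) ℂ, F.IsHomogeneous d →
      (∀ T, ¬ GmBdd (Ideal.span {F}) 1 B T) → ∀ (n : ℕ) (c : Crv M N n e),
      (∀ z, eval (fun j => c.f j z) F = 0) →
      ∃ E : Set ℝ, volume E < ⊤ ∧ ∀ r, 1 ≤ r → r ∉ E → 2 ≤ r ∧
        Tf c.f r ≤ C * (Nb (Wr c.g) r + Real.log r + Real.posLog (Tf c.G r)) := by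
  classical
  choose B C hC using fun n => fam_ub M N n e 1 (fun _ => d) 0 0
  refine ⟨(Finset.range (M + 2)).sup B, ∑ i ∈ Finset.range (M + 2), 2 * |C i|,
    Finset.sum_nonneg fun i _ => by positivity, fun F hF hno n c hcF => ?_⟩
  have hn : n ∈ Finset.range (M + 2) := Finset.mem_range.2 (by have := c.n_le; omega)
  have h0 : ∃ z : ℂ, eval (fun j => c.f j z) (1 : MvPolynomial (Fin (N + 1)) ℂ) ≠ 0 :=
    ⟨0, by rw [map_one]; exact one_ne_zero⟩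
  obtain ⟨E, hE, hb⟩ := hC n ⟨fun _ => F, fun _ => hF, 1, isHomogeneous_one _ _, 1,
    isHomogeneous_one _ _, c, fun _ => hcF, h0, h0⟩ (fun p hp => by
      refine hno p ?_
      have h1 := gm_of_A hp
      exact ⟨fun j => (h1.deg j).trans (Finset.le_sup (f := B) hn), h1.mem, h1.off, h1.nc⟩)
  refine ⟨E ∪ Set.Icc 1 2, N131.SU.fin_union hE 2, fun r hr hrE => ?_⟩
  have h1 : r ∉ E := fun h => hrE (Or.inl h)
  have h2 : 2 ≤ r := by
    by_contra hcon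
    push Not at hcon
    exact hrE (Or.inr ⟨hr, hcon.le⟩)
  refine ⟨h2, ?_⟩
  have h3 := hb r hr h1
  set q : ℂ → ℂ := fun z => eval (fun j => c.f j z) (1 : MvPolynomial (Fin (N + 1)) ℂ) with hq
  have h4 := c.X_le q h2
  have h5 : 0 ≤ c.X q r := (Real.log_nonneg hr).trans (c.X_ge q r hr)
  have h6 := c.Y_nonneg q hr
  have h7 : Nb q r = 0 := by
    have h8 : q = fun _ => 1 := by
      funext z
      rw [hq]
      exact map_one _
    rw [h8, N131.SR.Nb_eq (h := fun _ : ℂ => (1 : ℂ)) r ∅ (fun z => by simp)]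
    simp
  have h8 : c.Y q r = Nb (Wr c.g) r + Real.log r + Real.posLog (Tf c.G r) := by
    unfold Crv.Y
    rw [h7]
    ring
  have h9 : 2 * |C n| ≤ ∑ i ∈ Finset.range (M + 2), 2 * |C i| :=
    Finset.single_le_sum (f := fun i => 2 * |C i|) (fun i _ => by positivity) hn
  rw [← h8]
  calc Tf c.f r ≤ C n * c.X q r := h3
    _ ≤ |C n| * c.X q r := mul_le_mul_of_nonneg_right (le_abs_self _) h5
    _ ≤ |C n| * (2 * c.Y q r) := mul_le_mul_of_nonneg_left h4 (abs_nonneg _)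
    _ = 2 * |C n| * c.Y q r := by ring
    _ ≤ _ := mul_le_mul_of_nonneg_right h9 h6

/-- nonconstant curves are of large growth -/
theorem grow (hRAT : H60S.S_RAT) {N d B : ℕ} {D : ℝ} (hD : 0 ≤ D) (hB : 8 * D ≤ B)
    {F : MvPolynomial (Fin (N + 1)) ℂ} (hF : F.IsHomogeneous d)
    (hno : ∀ T, ¬ GmBdd (Ideal.span {F}) 1 B T) {g : Fin (N + 1) → ℂ → ℂ}
    (hg : ∀ j, Differentiable ℂ (g j)) (g0 : ∀ z, ∃ j, g j z ≠ 0)
    (gF : ∀ z, eval (fun j => g j z) F = 0)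
    (hnc : ∃ s t j k, g j s * g k t ≠ g k s * g j t) :
    ∃ R : ℝ, ∀ r, R ≤ r → D * Real.log r < Tf g r := by
  by_contra hcon
  push Not at hcon
  obtain ⟨s, t, j, k, hne⟩ := hnc
  apply hne
  refine H60K.log_const hRAT (D := D) (C := 0) hD hB hF hno hg g0 gF (fun R => ?_) s t j k
  obtain ⟨r, h1, h2⟩ := hcon R
  exact ⟨r, h1, by linarith⟩

/-- **The bound by the Wronskian.** -/
theorem hyp_bd (hRAT : H60S.S_RAT) (N d M e : ℕ) : ∃ (B : ℕ) (C : ℝ), 0 ≤ C ∧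
    ∀ F : MvPolynomial (Fin (N + 1)) ℂ, F.IsHomogeneous d →
      (∀ T, ¬ GmBdd (Ideal.span {F}) 1 B T) → ∀ (n : ℕ) (c : Crv M N n e),
      (∀ z, eval (fun j => c.f j z) F = 0) →
      (∃ s t j k, c.f j s * c.f k t ≠ c.f k s * c.f j t) →
      ∃ E : Set ℝ, volume E < ⊤ ∧ ∀ r, 1 ≤ r → r ∉ E →
        Tf c.f r ≤ C * (Nb (Wr c.g) r + Real.posLog (Tf c.G r)) := by
  obtain ⟨B, C, hC0, hC⟩ := hyp_raw N d M e
  set D : ℝ := 2 * C + 1 with hD
  refine ⟨max B ⌈8 * D⌉₊, 2 * C, by positivity, fun F hF hno n c hcF hnc => ?_⟩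
  have hno1 : ∀ T, ¬ GmBdd (Ideal.span {F}) 1 B T := fun T hT =>
    hno T ⟨fun j => (hT.deg j).trans (le_max_left _ _), hT.mem, hT.off, hT.nc⟩
  have hB : 8 * D ≤ ((max B ⌈8 * D⌉₊ : ℕ) : ℝ) := by
    have h2 : ((⌈8 * D⌉₊ : ℕ) : ℝ) ≤ ((max B ⌈8 * D⌉₊ : ℕ) : ℝ) := by
      exact_mod_cast le_max_right _ _
    exact (Nat.le_ceil (8 * D)).trans h2
  obtain ⟨E, hE, hb⟩ := hC F hF hno1 n c hcF
  obtain ⟨R, hR⟩ := grow hRAT (D := D) (by positivity) hB hF hno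
    (fun j => N131.SR.img_diff (P := c.P) c.D.hG j) c.D.h0 hcF hnc
  refine ⟨E ∪ Icc 1 R, N131.SU.fin_union hE R, fun r hr hrE => ?_⟩
  have h1 := (hb r hr fun h => hrE (Or.inl h)).2
  have h2 : R < r := by
    by_contra hcon
    exact hrE (Or.inr ⟨hr, not_lt.1 hcon⟩)
  have h3 := hR r h2.le
  have h4 := Real.log_nonneg hr
  have h3' : (2 * C + 1) * Real.log r < Tf c.f r := h3
  have h5 : C * (Nb (Wr c.g) r + Real.log r + Real.posLog (Tf c.G r)) =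
      C * (Nb (Wr c.g) r + Real.posLog (Tf c.G r)) + C * Real.log r := by ring
  rw [h5] at h1
  linarith

/-- **The bound by the Wronskian of the curve itself.** -/
theorem hyp_wr (hRAT : H60S.S_RAT) (N d : ℕ) : ∃ (B : ℕ) (C : ℝ), 0 ≤ C ∧
    ∀ F : MvPolynomial (Fin (N + 1)) ℂ, F.IsHomogeneous d →
      (∀ T, ¬ GmBdd (Ideal.span {F}) 1 B T) → ∀ f : Fin (N + 1) → ℂ → ℂ,
      (∀ j, Differentiable ℂ (f j)) → (∀ z, ∃ j, f j z ≠ 0) →
      (∀ z, eval (fun j => f j z) F = 0) →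
      (∃ s t j k, f j s * f k t ≠ f k s * f j t) → ∀ (n : ℕ) (g : Fin n → ℂ → ℂ),
      LinearIndependent ℂ g → Submodule.span ℂ (Set.range g) = Submodule.span ℂ (Set.range f) →
      ∃ E : Set ℝ, volume E < ⊤ ∧ ∀ r, 1 ≤ r → r ∉ E → Tf f r ≤ C * Nb (Wr g) r := by
  obtain ⟨B, C, hC0, hC⟩ := hyp_raw N d N 1
  obtain ⟨C', hC'0, hC'⟩ := N131.SU.absorb C
  set D : ℝ := 2 * C' + 1 with hD
  refine ⟨max B ⌈8 * D⌉₊, 2 * C', by positivity, fun F hF hno f hf f0 fF hnc n g hg hsp => ?_⟩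
  have hno1 : ∀ T, ¬ GmBdd (Ideal.span {F}) 1 B T := fun T hT =>
    hno T ⟨fun j => (hT.deg j).trans (le_max_left _ _), hT.mem, hT.off, hT.nc⟩
  have hB : 8 * D ≤ ((max B ⌈8 * D⌉₊ : ℕ) : ℝ) := by
    have h2 : ((⌈8 * D⌉₊ : ℕ) : ℝ) ≤ ((max B ⌈8 * D⌉₊ : ℕ) : ℝ) := by
      exact_mod_cast le_max_right _ _
    exact (Nat.le_ceil (8 * D)).trans h2
  let c : Crv N N n 1 := ⟨f, fun j => X j, g, ⟨hf, one_pos, fun j => isHomogeneous_X _ _,
    fun z => by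
      obtain ⟨j, hj⟩ := f0 z
      refine ⟨j, ?_⟩
      change eval (fun k => f k z) (X j) ≠ 0
      rwa [eval_X], hg, hsp⟩⟩
  have hcf : c.f = f := by
    funext j z
    change eval (fun k => f k z) (X j) = f j z
    rw [eval_X]
  obtain ⟨E, hE, hb⟩ := hC F hF hno1 n c (by rw [hcf]; exact fF)
  obtain ⟨R, hR⟩ := grow hRAT (D := D) (by positivity) hB hF hno hf f0 fF hnc
  refine ⟨E ∪ Icc 1 R, N131.SU.fin_union hE R, fun r hr hrE => ?_⟩
  obtain ⟨h0, h1⟩ := hb r hr fun h => hrE (Or.inl h)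
  rw [hcf] at h1
  have h2 : R < r := by
    by_contra hcon
    exact hrE (Or.inr ⟨hr, not_lt.1 hcon⟩)
  have h3 := hR r h2.le
  have h4 := Real.log_nonneg hr
  have h5 : Tf f r ≤ C' * (Nb (Wr g) r + Real.log r) := hC' _ _ _ (Nb_nonneg hr) h0 h1
  have h3' : (2 * C' + 1) * Real.log r < Tf f r := h3
  rw [mul_add] at h5
  linarith

end Pool.Agent.H60W
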