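import Mathlib
import Pool.Agent.H60W.Dich
import Pool.Agent.H60W.Hyp

/-!
The dichotomy without the logarithm of the radius.
-/

set_option autoImplicit false

namespace Pool.Agent.H60W

open MeasureTheory Set Filter Topology MvPolynomial
open Pool.Agent.Y377.IL (prop_of_wronskian)
open Pool.Agent.N131.SU (Crv)
open Pool.Agent.N131.SR (Tf Nb Wr Nb_nonneg Datum img)

theorem dich_raw (M N e s : ℕ) (dF : Fin s → ℕ) (q : ℕ) : ∃ (B : ℕ) (C : ℝ), 0 ≤ C ∧
    ∀ (F : Fin s → MvPolynomial (Fin (N + 1)) ℂ) (Q : MvPolynomial (Fin (N + 1)) ℂ),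
      (∀ i, (F i).IsHomogeneous (dF i)) → Q.IsHomogeneous q → ∀ (n : ℕ) (c : Crv M N n e),
      (∀ i z, eval (fun j => c.f j z) (F i) = 0) → (∃ z, eval (fun j => c.f j z) Q ≠ 0) →
      (∃ᶠ z in codiscrete ℂ, ∀ p, ¬ GmV F Q B (fun j => c.f j z) p) →
      ∃ E : Set ℝ, volume E < ⊤ ∧ ∀ r, 1 ≤ r → r ∉ E → 2 ≤ r ∧
        Tf c.f r ≤ C * (Nb (Wr c.g) r + Nb (fun z => eval (fun j => c.f j z) Q) r +
          Real.log r + Real.posLog (Tf c.G r)) := by
  classical
  choose B C hC using fun n => fam_dich M N n e s dF q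
  refine ⟨(Finset.range (M + 2)).sup B, ∑ i ∈ Finset.range (M + 2), 2 * |C i|,
    Finset.sum_nonneg fun i _ => by positivity, fun F Q hF hQ n c hcF hcQ hfr => ?_⟩
  have hn : n ∈ Finset.range (M + 2) := Finset.mem_range.2 (by have := c.n_le; omega)
  obtain ⟨E, hE, hb⟩ := hC n ⟨F, hF, Q, hQ, c, hcF, hcQ⟩ (hfr.mono fun z hz p hp => by
      refine hz p ?_
      exact ⟨fun j => (hp.1 j).trans (Finset.le_sup (f := B) hn), hp.2⟩)
  refine ⟨E ∪ Set.Icc 1 2, N131.SU.fin_union hE 2, fun r hr hrE => ?_⟩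
  have h1 : r ∉ E := fun h => hrE (Or.inl h)
  have h2 : 2 ≤ r := by
    by_contra hcon
    push Not at hcon
    exact hrE (Or.inr ⟨hr, hcon.le⟩)
  refine ⟨h2, ?_⟩
  have h3 := hb r hr h1
  set Qf : ℂ → ℂ := fun z => eval (fun j => c.f j z) Q with hQf
  have h4 := c.X_le Qf h2
  have h5 : 0 ≤ c.X Qf r := (Real.log_nonneg hr).trans (c.X_ge Qf r hr)
  have h6 := c.Y_nonneg Qf hr
  have h8 : c.Y Qf r = Nb (Wr c.g) r + Nb Qf r + Real.log r + Real.posLog (Tf c.G r) := rfl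
  have h9 : 2 * |C n| ≤ ∑ i ∈ Finset.range (M + 2), 2 * |C i| :=
    Finset.single_le_sum (f := fun i => 2 * |C i|) (fun i _ => by positivity) hn
  rw [← h8]
  calc Tf c.f r ≤ C n * c.X Qf r := h3
    _ ≤ |C n| * c.X Qf r := mul_le_mul_of_nonneg_right (le_abs_self _) h5
    _ ≤ |C n| * (2 * c.Y Qf r) := mul_le_mul_of_nonneg_left h4 (abs_nonneg _)
    _ = 2 * |C n| * c.Y Qf r := by ring
    _ ≤ _ := mul_le_mul_of_nonneg_right h9 h6

/-- values of a form along a polynomial curve -/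
theorem eval_ev {N : ℕ} (p : Fin (N + 1) → Polynomial ℂ) (G : MvPolynomial (Fin (N + 1)) ℂ)
    (z : ℂ) : (aeval p G : Polynomial ℂ).eval z = eval (fun j => (p j).eval z) G := by
  rw [aeval_def, ← Polynomial.coe_evalRingHom, hom_eval₂]
  rw [MvPolynomial.eval, coe_eval₂Hom]
  congr 1
  ext x
  simp

theorem eval_smul {N m : ℕ} {G : MvPolynomial (Fin (N + 1)) ℂ} (hG : G.IsHomogeneous m) (a : ℂ)
    (x : Fin (N + 1) → ℂ) : eval (fun j => a * x j) G = a ^ m * eval x G := by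
  have h1 := scale_form hG a x
  rw [MvPolynomial.aeval_eq_eval, MvPolynomial.aeval_eq_eval] at h1
  exact h1

/-- a shifted and scaled polynomial curve has degree at most that of the curve -/
theorem shift_deg (u : Polynomial ℂ) {B : ℕ} (hu : u.natDegree ≤ B) (a b : ℂ) :
    (Polynomial.C a * u.comp (Polynomial.X + Polynomial.C b)).natDegree ≤ B := by
  refine (Polynomial.natDegree_C_mul_le _ _).trans ?_
  refine Polynomial.natDegree_comp_le.trans ?_
  rw [Polynomial.natDegree_X_add_C, mul_one]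
  exact hu

/-- shifting and scaling preserve the wronskian condition -/
theorem shift_wr {u w : Polynomial ℂ}
    (hjk : Polynomial.derivative u * w ≠ u * Polynomial.derivative w) {a : ℂ} (ha : a ≠ 0)
    (b : ℂ) :
    Polynomial.derivative (Polynomial.C a * u.comp (Polynomial.X + Polynomial.C b)) *
        (Polynomial.C a * w.comp (Polynomial.X + Polynomial.C b)) ≠
      (Polynomial.C a * u.comp (Polynomial.X + Polynomial.C b)) *
        Polynomial.derivative (Polynomial.C a * w.comp (Polynomial.X + Polynomial.C b)) := by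
  intro hcon
  have h1 : ∀ t : Polynomial ℂ,
      Polynomial.derivative (Polynomial.C a * t.comp (Polynomial.X + Polynomial.C b)) =
        Polynomial.C a * (Polynomial.derivative t).comp (Polynomial.X + Polynomial.C b) := by
    intro t
    rw [Polynomial.derivative_C_mul, Polynomial.derivative_comp, Polynomial.derivative_add,
      Polynomial.derivative_X, Polynomial.derivative_C, add_zero, one_mul]
  rw [h1, h1] at hcon
  apply hjk
  apply Polynomial.funext
  intro z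
  have h2 := congrArg (fun r : Polynomial ℂ => r.eval (z - b)) hcon
  simp only [Polynomial.eval_mul, Polynomial.eval_C, Polynomial.eval_comp, Polynomial.eval_add,
    Polynomial.eval_X, sub_add_cancel] at h2
  rw [Polynomial.eval_mul, Polynomial.eval_mul]
  have h3 : a * a ≠ 0 := mul_ne_zero ha ha
  apply mul_left_cancel₀ h3
  linear_combination h2

/-- nonconstant curves without punctured rational curves through their points are of large
growth -/
theorem grow2 (hRAT : H60S.S_RAT) {N s B : ℕ} {D : ℝ} (hD : 0 ≤ D) (hB : 8 * D ≤ B)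
    {dF : Fin s → ℕ} {q : ℕ} {F : Fin s → MvPolynomial (Fin (N + 1)) ℂ}
    {Q : MvPolynomial (Fin (N + 1)) ℂ} (hF : ∀ i, (F i).IsHomogeneous (dF i))
    (hQ : Q.IsHomogeneous q) {g : Fin (N + 1) → ℂ → ℂ}
    (hg : ∀ j, Differentiable ℂ (g j)) (g0 : ∀ z, ∃ j, g j z ≠ 0)
    (gF : ∀ i z, eval (fun j => g j z) (F i) = 0) (gQ : ∀ z, eval (fun j => g j z) Q ≠ 0)
    (hnc : ∃ s t j k, g j s * g k t ≠ g k s * g j t)
    (hfr : ∃ᶠ z in codiscrete ℂ, ∀ p, ¬ GmV F Q B (fun j => g j z) p) :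
    ∃ R : ℝ, ∀ r, R ≤ r → D * Real.log r < Tf g r := by
  by_contra hcon
  push Not at hcon
  obtain ⟨u, v, hu, hv, hgu⟩ := hRAT N g hg g0 D 0 hD (fun R => by
    obtain ⟨r, h1, h2⟩ := hcon R
    exact ⟨r, h1, by linarith⟩)
  obtain ⟨z0, hz0⟩ := hfr.exists
  have hform : ∀ (m : ℕ) (G : MvPolynomial (Fin (N + 1)) ℂ), G.IsHomogeneous m → ∀ z,
      eval (fun j => g j z) G = v z ^ m * (aeval u G : Polynomial ℂ).eval z := by
    intro m G hG z
    have h1 : (fun j => g j z) = fun j => v z * (u j).eval z := funext fun j => hgu j z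
    rw [h1, eval_smul hG, eval_ev]
  have hF0 : ∀ i, (aeval u (F i) : Polynomial ℂ) = 0 := by
    intro i
    apply Polynomial.funext
    intro z
    have h1 := gF i z
    rw [hform _ _ (hF i)] at h1
    rw [Polynomial.eval_zero]
    exact (mul_eq_zero.1 h1).resolve_left (pow_ne_zero _ (hv z))
  obtain ⟨b, hb⟩ : ∃ b : ℂ, (aeval u Q : Polynomial ℂ) = Polynomial.C b := by
    have h1 : (aeval u Q : Polynomial ℂ).degree ≤ 0 := by
      by_contra hcon
      obtain ⟨z, hz⟩ := IsAlgClosed.exists_root (aeval u Q : Polynomial ℂ) (fun h => hcon h.le)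
      apply gQ z
      rw [hform _ _ hQ, hz, mul_zero]
    exact ⟨_, Polynomial.eq_C_of_degree_le_zero h1⟩
  have hb0 : b ≠ 0 := by
    rintro rfl
    apply gQ 0
    rw [hform _ _ hQ, hb, Polynomial.eval_C, mul_zero]
  have hw : ∃ j k, Polynomial.derivative (u j) * u k ≠ u j * Polynomial.derivative (u k) := by
    by_contra hno
    push Not at hno
    obtain ⟨s1, t1, j1, k1, hne⟩ := hnc
    obtain ⟨l, hl⟩ := g0 0
    have hul : u l ≠ 0 := by
      intro h1
      apply hl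
      rw [hgu, h1, Polynomial.eval_zero, mul_zero]
    have h1 : ∀ j, ∃ c, u j = Polynomial.C c * u l := fun j => prop_of_wronskian hul (hno j l)
    obtain ⟨c1, hc1⟩ := h1 j1
    obtain ⟨c2, hc2⟩ := h1 k1
    apply hne
    rw [hgu, hgu, hgu, hgu, hc1, hc2]
    simp only [Polynomial.eval_mul, Polynomial.eval_C]
    ring
  obtain ⟨j, k, hjk⟩ := hw
  have hscale : ∀ (m : ℕ) (G : MvPolynomial (Fin (N + 1)) ℂ), G.IsHomogeneous m →
      aeval (fun l => Polynomial.C (v z0) *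
        (u l).comp (Polynomial.X + Polynomial.C (z0 - 1))) G =
        Polynomial.C (v z0) ^ m *
          (aeval u G : Polynomial ℂ).comp (Polynomial.X + Polynomial.C (z0 - 1)) := by
    intro m G hG
    rw [scale_form hG, comp_ev]
  apply hz0 fun l => Polynomial.C (v z0) *
    (u l).comp (Polynomial.X + Polynomial.C (z0 - 1))
  refine ⟨fun l => ?_, fun i => ?_, ⟨v z0 ^ q * b, 0, mul_ne_zero (pow_ne_zero _ (hv z0)) hb0, ?_⟩,
    ⟨j, k, shift_wr hjk (hv z0) _⟩, fun l => ?_⟩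
  · have h2 : (u l).natDegree ≤ B := by
      have h3 := (hu l).trans hB
      exact_mod_cast h3
    exact shift_deg _ h2 _ _
  · rw [hscale _ _ (hF i), hF0 i, Polynomial.zero_comp, mul_zero]
  · rw [hscale _ _ hQ, hb, Polynomial.C_comp, pow_zero, mul_one, Polynomial.C_mul, Polynomial.C_pow]
  · rw [Polynomial.eval_mul, Polynomial.eval_C, Polynomial.eval_comp, Polynomial.eval_add,
      Polynomial.eval_X, Polynomial.eval_C, add_sub_cancel, ← hgu]

/-- a function with a zero has a large counting function -/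
theorem log_le_Nb {f : ℂ → ℂ} (hd : Differentiable ℂ f) (hn : ∃ z, f z ≠ 0) (h0 : ∃ z, f z = 0) :
    ∃ R : ℝ, ∀ r, R ≤ r → Real.log r ≤ 2 * Nb f r := by
  classical
  obtain ⟨a, ha⟩ := h0
  refine ⟨max 1 (‖a‖ ^ 2 + 1), fun r hr => ?_⟩
  have hr1 : 1 ≤ r := (le_max_left _ _).trans hr
  have hr2 : ‖a‖ ^ 2 + 1 ≤ r := (le_max_right _ _).trans hr
  have hr0 : 0 < r := by linarith
  have hlog := Real.log_nonneg hr1
  set F1 := (N131.SR.zeros_finite hd hn r).toFinset with hF1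
  have hF1' : ∀ z, z ∈ F1 ↔ f z = 0 ∧ ‖z‖ ≤ r := fun z => by rw [hF1, Set.Finite.mem_toFinset]; rfl
  have har : ‖a‖ ≤ r := by nlinarith [sq_nonneg (‖a‖ - 1), norm_nonneg a]
  have haF : a ∈ F1 := (hF1' a).2 ⟨ha, har⟩
  rw [N131.SR.Nb_eq r F1 hF1']
  have hterm : ∀ z ∈ F1, 0 ≤ Real.log (r * ‖z‖⁻¹) := by
    intro z hz
    rcases eq_or_ne z 0 with rfl | h
    · simp
    · apply Real.log_nonneg
      have : 0 < ‖z‖ := norm_pos_iff.2 h
      rw [← div_eq_mul_inv, one_le_div this]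
      exact ((hF1' z).1 hz).2
  have hsum : Real.log (r * ‖a‖⁻¹) ≤ ∑ z ∈ F1, Real.log (r * ‖z‖⁻¹) :=
    Finset.single_le_sum (f := fun z => Real.log (r * ‖z‖⁻¹)) hterm haF
  rcases eq_or_ne a 0 with rfl | h
  · have h1 : 0 ≤ ∑ z ∈ F1, Real.log (r * ‖z‖⁻¹) := Finset.sum_nonneg hterm
    rw [Set.indicator_of_mem (show (0 : ℂ) ∈ {z : ℂ | f z = 0} from ha)]
    simp only [Pi.one_apply, one_mul]
    linarith
  · have hap : 0 < ‖a‖ := norm_pos_iff.2 h
    have h1 : 0 ≤ {z : ℂ | f z = 0}.indicator (1 : ℂ → ℝ) 0 * Real.log r :=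
      mul_nonneg (Set.indicator_nonneg (fun _ _ => by simp) _) hlog
    have h2 : Real.log r ≤ 2 * Real.log (r * ‖a‖⁻¹) := by
      rw [Real.log_mul hr0.ne' (inv_ne_zero hap.ne'), Real.log_inv]
      have h3 : Real.log (‖a‖ ^ 2) ≤ Real.log r := Real.log_le_log (by positivity) (by linarith)
      rw [Real.log_pow] at h3
      push_cast at h3
      linarith
    linarith

/-- **The dichotomy without the logarithm of the radius.** -/
theorem dich (hRAT : H60S.S_RAT) (M N e s : ℕ) (dF : Fin s → ℕ) (q : ℕ) :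
    ∃ (B : ℕ) (C : ℝ), 0 ≤ C ∧
    ∀ (F : Fin s → MvPolynomial (Fin (N + 1)) ℂ) (Q : MvPolynomial (Fin (N + 1)) ℂ),
      (∀ i, (F i).IsHomogeneous (dF i)) → Q.IsHomogeneous q → ∀ (n : ℕ) (c : Crv M N n e),
      (∀ i z, eval (fun j => c.f j z) (F i) = 0) → (∃ z, eval (fun j => c.f j z) Q ≠ 0) →
      (∃ s t j k, c.f j s * c.f k t ≠ c.f k s * c.f j t) →
      (∃ᶠ z in codiscrete ℂ, ∀ p, ¬ GmV F Q B (fun j => c.f j z) p) →
      ∃ E : Set ℝ, volume E < ⊤ ∧ ∀ r, 1 ≤ r → r ∉ E → Tf c.f r ≤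
        C * (Nb (Wr c.g) r + Nb (fun z => eval (fun j => c.f j z) Q) r +
          Real.posLog (Tf c.G r)) := by
  obtain ⟨B, C, hC0, hC⟩ := dich_raw M N e s dF q
  set D : ℝ := 2 * C + 1 with hD
  refine ⟨max B ⌈8 * D⌉₊, 3 * C, by positivity, fun F Q hF hQ n c hcF hcQ hnc hfr => ?_⟩
  have hB : 8 * D ≤ ((max B ⌈8 * D⌉₊ : ℕ) : ℝ) := by
    have h2 : ((⌈8 * D⌉₊ : ℕ) : ℝ) ≤ ((max B ⌈8 * D⌉₊ : ℕ) : ℝ) := by
      exact_mod_cast le_max_right _ _
    exact (Nat.le_ceil (8 * D)).trans h2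
  obtain ⟨E, hE, hb⟩ := hC F Q hF hQ n c hcF hcQ (hfr.mono fun z hz p hp =>
    hz p ⟨fun j => (hp.1 j).trans (le_max_left _ _), hp.2⟩)
  have hfd : ∀ j, Differentiable ℂ (c.f j) := fun j => N131.SR.img_diff (P := c.P) c.D.hG j
  set Qf : ℂ → ℂ := fun z => eval (fun j => c.f j z) Q with hQf
  have hQd : Differentiable ℂ Qf := N131.SR.form_diff hfd Q
  by_cases hz : ∃ z, Qf z = 0
  · obtain ⟨R, hR⟩ := log_le_Nb hQd hcQ hz
    refine ⟨E ∪ Icc 1 R, N131.SU.fin_union hE R, fun r hr hrE => ?_⟩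
    have h1 := (hb r hr fun h => hrE (Or.inl h)).2
    have h2 : R < r := by
      by_contra hcon
      exact hrE (Or.inr ⟨hr, not_lt.1 hcon⟩)
    have h3 := hR r h2.le
    have h4 := Nb_nonneg (h := Wr c.g) hr
    have h5 := Nb_nonneg (h := Qf) hr
    have h6 : 0 ≤ Real.posLog (Tf c.G r) := Real.posLog_nonneg
    refine h1.trans ?_
    have h7 : C * (Nb (Wr c.g) r + Nb Qf r + Real.log r + Real.posLog (Tf c.G r)) ≤
        C * (3 * (Nb (Wr c.g) r + Nb Qf r + Real.posLog (Tf c.G r))) :=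
      mul_le_mul_of_nonneg_left (by linarith) hC0
    linarith
  · push Not at hz
    obtain ⟨R, hR⟩ := grow2 hRAT (D := D) (by positivity) hB hF hQ hfd c.D.h0 hcF hz hnc hfr
    refine ⟨E ∪ Icc 1 R, N131.SU.fin_union hE R, fun r hr hrE => ?_⟩
    have h1 := (hb r hr fun h => hrE (Or.inl h)).2
    have h2 : R < r := by
      by_contra hcon
      exact hrE (Or.inr ⟨hr, not_lt.1 hcon⟩)
    have h3 := hR r h2.le
    have h4 := Real.log_nonneg hr
    have h6 := Nb_nonneg (h := Wr c.g) hr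
    have h7 := Nb_nonneg (h := Qf) hr
    have h8 : 0 ≤ Real.posLog (Tf c.G r) := Real.posLog_nonneg
    have h3' : (2 * C + 1) * Real.log r < Tf c.f r := h3
    have h5 : C * (Nb (Wr c.g) r + Nb Qf r + Real.log r + Real.posLog (Tf c.G r)) =
        C * (Nb (Wr c.g) r + Nb Qf r + Real.posLog (Tf c.G r)) + C * Real.log r := by ring
    rw [h5] at h1
    have h9 : 0 ≤ C * (Nb (Wr c.g) r + Nb Qf r + Real.posLog (Tf c.G r)) :=
      mul_nonneg hC0 (by linarith)
    linarith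

/-- **The dichotomy for the Wronskian of the curve itself.** -/
theorem dich_wr (hRAT : H60S.S_RAT) (N s : ℕ) (dF : Fin s → ℕ) (q : ℕ) :
    ∃ (B : ℕ) (C : ℝ), 0 ≤ C ∧
    ∀ (F : Fin s → MvPolynomial (Fin (N + 1)) ℂ) (Q : MvPolynomial (Fin (N + 1)) ℂ),
      (∀ i, (F i).IsHomogeneous (dF i)) → Q.IsHomogeneous q → ∀ f : Fin (N + 1) → ℂ → ℂ,
      (∀ j, Differentiable ℂ (f j)) → (∀ z, ∃ j, f j z ≠ 0) →
      (∀ i z, eval (fun j => f j z) (F i) = 0) → (∃ z, eval (fun j => f j z) Q ≠ 0) →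
      (∃ s t j k, f j s * f k t ≠ f k s * f j t) →
      (∃ᶠ z in codiscrete ℂ, ∀ p, ¬ GmV F Q B (fun j => f j z) p) →
      ∀ (n : ℕ) (g : Fin n → ℂ → ℂ),
      LinearIndependent ℂ g → Submodule.span ℂ (Set.range g) = Submodule.span ℂ (Set.range f) →
      ∃ E : Set ℝ, volume E < ⊤ ∧ ∀ r, 1 ≤ r → r ∉ E →
        Tf f r ≤ C * (Nb (Wr g) r + Nb (fun z => eval (fun j => f j z) Q) r) := by
  obtain ⟨B, C, hC0, hC⟩ := dich_raw N N 1 s dF q
  obtain ⟨C', hC'0, hC'⟩ := N131.SU.absorb C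
  set D : ℝ := 2 * C' + 1 with hD
  refine ⟨max B ⌈8 * D⌉₊, 3 * C', by positivity,
    fun F Q hF hQ f hf f0 fF fQ hnc hfr n g hg hsp => ?_⟩
  have hB : 8 * D ≤ ((max B ⌈8 * D⌉₊ : ℕ) : ℝ) := by
    have h2 : ((⌈8 * D⌉₊ : ℕ) : ℝ) ≤ ((max B ⌈8 * D⌉₊ : ℕ) : ℝ) := by
      exact_mod_cast le_max_right _ _
    exact (Nat.le_ceil (8 * D)).trans h2
  let c : Crv N N n 1 := ⟨f, fun j => X j, g, ⟨hf, one_pos, fun j => isHomogeneous_X _ _,
    fun z => by
      obtain ⟨j, hj⟩ := f0 z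
      refine ⟨j, ?_⟩
      change eval (fun k => f k z) (X j) ≠ 0
      rwa [eval_X], hg, hsp⟩⟩
  have hcf : c.f = f := by
    funext j z
    change eval (fun k => f k z) (X j) = f j z
    rw [eval_X]
  obtain ⟨E, hE, hb⟩ := hC F Q hF hQ n c (by rw [hcf]; exact fF) (by rw [hcf]; exact fQ)
    (by
      rw [hcf]
      exact hfr.mono fun z hz p hp => hz p ⟨fun j => (hp.1 j).trans (le_max_left _ _), hp.2⟩)
  rw [hcf] at hb
  set Qf : ℂ → ℂ := fun z => eval (fun j => f j z) Q with hQf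
  have hQd : Differentiable ℂ Qf := N131.SR.form_diff hf Q
  have hkey : ∀ r, 1 ≤ r → r ∉ E → Tf f r ≤ C' * (Nb (Wr g) r + Nb Qf r + Real.log r) := by
    intro r hr hrE
    obtain ⟨h0, h1⟩ := hb r hr hrE
    have h4 := Nb_nonneg (h := Wr g) hr
    have h5 := Nb_nonneg (h := Qf) hr
    exact hC' _ _ _ (by linarith) h0 h1
  by_cases hz : ∃ z, Qf z = 0
  · obtain ⟨R, hR⟩ := log_le_Nb hQd fQ hz
    refine ⟨E ∪ Icc 1 R, N131.SU.fin_union hE R, fun r hr hrE => ?_⟩
    have h1 := hkey r hr fun h => hrE (Or.inl h)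
    have h2 : R < r := by
      by_contra hcon
      exact hrE (Or.inr ⟨hr, not_lt.1 hcon⟩)
    have h3 := hR r h2.le
    have h4 := Nb_nonneg (h := Wr g) hr
    have h5 := Nb_nonneg (h := Qf) hr
    refine h1.trans ?_
    have h7 : C' * (Nb (Wr g) r + Nb Qf r + Real.log r) ≤
        C' * (3 * (Nb (Wr g) r + Nb Qf r)) :=
      mul_le_mul_of_nonneg_left (by linarith) hC'0
    linarith
  · push Not at hz
    obtain ⟨R, hR⟩ := grow2 hRAT (D := D) (by positivity) hB hF hQ hf f0 fF hz hnc hfr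
    refine ⟨E ∪ Icc 1 R, N131.SU.fin_union hE R, fun r hr hrE => ?_⟩
    have h1 := hkey r hr fun h => hrE (Or.inl h)
    have h2 : R < r := by
      by_contra hcon
      exact hrE (Or.inr ⟨hr, not_lt.1 hcon⟩)
    have h3 := hR r h2.le
    have h4 := Real.log_nonneg hr
    have h6 := Nb_nonneg (h := Wr g) hr
    have h7 := Nb_nonneg (h := Qf) hr
    have h3' : (2 * C' + 1) * Real.log r < Tf f r := h3
    rw [mul_add] at h1
    have h9 : 0 ≤ C' * (Nb (Wr g) r + Nb Qf r) := mul_nonneg hC'0 (by linarith)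
    linarith

end Pool.Agent.H60W
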