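import Mathlib
import Pool.Agent.H60W.Dich

/-!
Entire curves given by iterated linear differential equations over meromorphic functions, and
punctured rational curves of bounded degree through their points.
-/

set_option autoImplicit false

namespace Pool.Agent.H60W

open MeasureTheory Set Filter Topology MvPolynomial Asymptotics
open Pool.Agent.N131.SU
open Pool.Agent.N131.SR (Wr Tf diff_ne Nb Nb_nonneg)
open Pool.Agent.W602.GT (IsForm)
open ValueDistribution (characteristic)

variable {N m s r : ℕ}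

/-- The variables for the functions `a_i`, `i < m`, and the functions `y_{l i}`, `l < s`,
`i < r`. -/
abbrev Var (m s r : ℕ) : Type := Fin m ⊕ (Fin s × Fin r)

/-- The values of the functions `a_i` and `y_{l' i}`, `l' < l` at `z`; the functions `y_{l' i}` with
`l' ≥ l` are replaced by `0`. -/
noncomputable def vals (a : Fin m → ℂ → ℂ) (y : Fin s → Fin r → ℂ → ℂ) (l : ℕ) (z : ℂ) :
    Var m s r → ℂ :=
  Sum.elim (fun i => a i z) fun v => if (v.1 : ℕ) < l then y v.1 v.2 z else 0

/-- The functions `a_i` and `y_{l i}` are meromorphic, and for each `l` the vector `y_l` of length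
`r` satisfies, at all `z` outside a discrete closed set, a system of linear differential equations
`y_l' = M_l y_l`, where the entries of the matrix `M_l` are values of polynomials with complex
coefficients, of degree at most `e`, at the `a_i` and at the `y_{l' i}` with `l' < l`. -/
structure Tower (e : ℕ) (a : Fin m → ℂ → ℂ) (y : Fin s → Fin r → ℂ → ℂ) : Prop where
  ma : ∀ i, Meromorphic (a i)
  my : ∀ l i, Meromorphic (y l i)
  ode : ∀ l : Fin s, ∃ P : Fin r → Fin r → MvPolynomial (Var m s r) ℂ,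
    (∀ i j, (P i j).totalDegree ≤ e) ∧ ∀ᶠ z in codiscrete ℂ, ∀ i,
      deriv (y l i) z = ∑ j, eval (vals a y l z) (P i j) * y l j z

/-- Outside a discrete closed set `h` is the value of a polynomial of degree at most `e` at the `a_i`
and `y_{l i}`. -/
def InTower (e : ℕ) (a : Fin m → ℂ → ℂ) (y : Fin s → Fin r → ℂ → ℂ) (h : ℂ → ℂ) : Prop :=
  ∃ P : MvPolynomial (Var m s r) ℂ, P.totalDegree ≤ e ∧
    ∀ᶠ z in codiscrete ℂ, h z = eval (vals a y s z) P

/-- If `q > 0`, the functions `f^α / Q(f)` with `|α| = q` (the coordinates of the curve `f` in the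
affine variety given by `Q ≠ 0`) are in the tower; if `q = 0`, the homogeneous coordinates of `f`
are, up to a common factor. -/
def Reg (e : ℕ) (a : Fin m → ℂ → ℂ) (y : Fin s → Fin r → ℂ → ℂ)
    (Q : MvPolynomial (Fin (N + 1)) ℂ) (q : ℕ) (f : ℂ → Fin (N + 1) → ℂ) : Prop :=
  (q = 0 → ∃ u : ℂ → ℂ, Meromorphic u ∧ (∀ᶠ z in codiscrete ℂ, u z ≠ 0) ∧
    ∀ j, InTower e a y fun z => u z * f z j) ∧
  (0 < q → ∀ α : Fin (N + 1) →₀ ℕ, ∑ j, α j = q →
    InTower e a y fun z => (∏ j, f z j ^ α j) / eval (f z) Q)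

/-- changes on a discrete set -/
theorem iter_congr {P : (Pt → ℂ) → Prop} (HP : Cl P) {u v : Pt → ℂ} (hu : IterS P u)
    (hv : Mero v) (huv : ∀ᶠ p in cod, v p = u p) : IterS P v := by
  have hm : Mero fun p => v p - u p := hv.sub (hu.mero HP)
  have h0 : IterS P fun p => v p - u p := by
    refine IterS.ode (n := 1) (fun _ _ p => (fun _ : ℕ => (0 : ℂ)) p.1)
      (fun _ p => v p - u p) (fun _ _ => IterS.const HP fun _ => 0) (fun _ => hm) ?_ 0
    filter_upwards [cod_nhds huv] with p hp i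
    rw [Finset.sum_eq_zero fun j _ => by rw [zero_mul]]
    change deriv (fun z => v (p.1, z) - u (p.1, z)) p.2 = 0
    have h1 : (fun z => v (p.1, z) - u (p.1, z)) =ᶠ[𝓝 p.2] fun _ => (0 : ℂ) := by
      filter_upwards [hp] with z hz
      rw [hz, sub_self]
    rw [h1.deriv_eq, deriv_const]
  have h1 := hu.add h0
  have h2 : (fun z => u z + (v z - u z)) = v := funext fun z => by ring
  rwa [h2] at h1

/-- polynomials of bounded degree -/
theorem poly_iter {P : (Pt → ℂ) → Prop} (HP : Cl P) {ι : Type} [Fintype ι] {v : ι → Pt → ℂ}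
    (hv : ∀ i, IterS P (v i)) {e : ℕ} (p : ℕ → MvPolynomial ι ℂ)
    (hp : ∀ k, (p k).totalDegree ≤ e) : IterS P fun z => eval (fun i => v i z) (p z.1) := by
  classical
  let A : Finset (ι →₀ ℕ) := (Finset.range (e + 1)).biUnion fun d => Finset.univ.finsuppAntidiag d
  have hA : ∀ β : ι →₀ ℕ, ∑ i, β i ≤ e → β ∈ A := by
    intro β hβ
    rw [Finset.mem_biUnion]
    refine ⟨∑ i, β i, Finset.mem_range.2 (by omega), ?_⟩
    rw [Finset.mem_finsuppAntidiag]
    exact ⟨rfl, Finset.subset_univ _⟩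
  have h1 : (fun z : Pt => eval (fun i => v i z) (p z.1)) = fun z =>
      ∑ β ∈ A, (fun k => coeff β (p k)) z.1 * ∏ i, v i z ^ β i := by
    funext z
    rw [eval_eq']
    apply Finset.sum_subset
    · intro β hβ
      apply hA
      refine le_trans ?_ (hp z.1)
      have h2 := le_totalDegree hβ
      rw [Finsupp.sum_fintype] at h2
      · exact h2
      · intro _
        rfl
    · intro β _ hβ
      rw [mem_support_iff, not_not] at hβ
      rw [hβ, zero_mul]
  rw [h1]
  apply IterS.sum HP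
  intro β _
  refine (IterS.const HP fun k => coeff β (p k)).mul ?_
  apply IterS.prod HP
  intro i _
  have h2 := IterS.prod HP (Finset.range (β i)) (a := fun _ z => v i z) fun _ _ => hv i
  simpa using h2

/-- the functions of a sequence of towers -/
theorem tower_iter {P : (Pt → ℂ) → Prop} (HP : Cl P) {e : ℕ} {a : ℕ → Fin m → ℂ → ℂ}
    {y : ℕ → Fin s → Fin r → ℂ → ℂ} (ha : ∀ i, P fun p => a p.1 i p.2)
    (ht : ∀ k, Tower e (a k) (y k)) (l : Fin s) (i : Fin r) :
    IterS P fun p => y p.1 l i p.2 := by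
  obtain ⟨l, hl⟩ := l
  induction l using Nat.strong_induction_on generalizing i with
  | _ l ih =>
    choose Q hQ hode using fun k => (ht k).ode ⟨l, hl⟩
    have hv : ∀ v : Var m s r, IterS P fun p => vals (a p.1) (y p.1) l p.2 v := by
      rintro (j | ⟨l', i'⟩)
      · exact IterS.base (ha j)
      · by_cases h : (l' : ℕ) < l
        · have h1 : (fun p : Pt => vals (a p.1) (y p.1) l p.2 (Sum.inr (l', i'))) =
              fun p => y p.1 l' i' p.2 := by
            funext p
            change (if (l' : ℕ) < l then y p.1 l' i' p.2 else 0) = _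
            rw [if_pos h]
          rw [h1]
          exact ih l' h i' l'.2
        · have h1 : (fun p : Pt => vals (a p.1) (y p.1) l p.2 (Sum.inr (l', i'))) =
              fun p => (fun _ : ℕ => (0 : ℂ)) p.1 := by
            funext p
            change (if (l' : ℕ) < l then y p.1 l' i' p.2 else 0) = _
            rw [if_neg h]
          rw [h1]
          exact IterS.const HP fun _ => 0
    refine IterS.ode (n := r) (fun i j p => eval (vals (a p.1) (y p.1) l p.2) (Q p.1 i j))
      (fun i p => y p.1 ⟨l, hl⟩ i p.2) (fun i j => ?_) (fun i k => (ht k).my _ i) ?_ i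
    · exact poly_iter HP (v := fun v p => vals (a p.1) (y p.1) l p.2 v) hv (fun k => Q k i j)
        fun k => hQ k i j
    · rw [ev_cod]
      exact Eventually.of_forall fun k => hode k

theorem in_iter {P : (Pt → ℂ) → Prop} (HP : Cl P) {e : ℕ} {a : ℕ → Fin m → ℂ → ℂ}
    {y : ℕ → Fin s → Fin r → ℂ → ℂ} (ha : ∀ i, P fun p => a p.1 i p.2)
    (ht : ∀ k, Tower e (a k) (y k)) {h : Pt → ℂ} (hm : Mero h)
    (hh : ∀ k, InTower e (a k) (y k) fun z => h (k, z)) : IterS P h := by
  choose Q hQ hev using hh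
  have hv : ∀ v : Var m s r, IterS P fun p => vals (a p.1) (y p.1) s p.2 v := by
    rintro (j | ⟨l', i'⟩)
    · exact IterS.base (ha j)
    · have h1 : (fun p : Pt => vals (a p.1) (y p.1) s p.2 (Sum.inr (l', i'))) =
          fun p => y p.1 l' i' p.2 := by
        funext p
        change (if (l' : ℕ) < s then y p.1 l' i' p.2 else 0) = _
        rw [if_pos l'.2]
      rw [h1]
      exact tower_iter HP ha ht l' i'
  refine iter_congr HP (poly_iter HP (v := fun v p => vals (a p.1) (y p.1) s p.2 v) hv Q hQ) hm ?_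
  rw [ev_cod]
  exact Eventually.of_forall fun k => hev k

/-- a curve in a quasi-projective variety with coordinates in a tower -/
structure Sys3 (N n κ : ℕ) (dF : Fin κ → ℕ) (q m s r e : ℕ) where
  F : Fin κ → MvPolynomial (Fin (N + 1)) ℂ
  hF : ∀ i, (F i).IsHomogeneous (dF i)
  Q : MvPolynomial (Fin (N + 1)) ℂ
  hQ : Q.IsHomogeneous q
  c : Crv N N n 1
  hon : ∀ i z, eval (fun j => c.f j z) (F i) = 0
  hoff : ∃ z, eval (fun j => c.f j z) Q ≠ 0
  a : Fin m → ℂ → ℂ
  y : Fin s → Fin r → ℂ → ℂ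
  tow : Tower e a y
  reg : Reg e a y Q q fun z j => c.f j z

/-- the characteristic functions of the coefficients -/
noncomputable def Ch (a : Fin m → ℂ → ℂ) (ρ : ℝ) : ℝ := ∑ i, characteristic (a i) ⊤ ρ

theorem Ch_nonneg (a : Fin m → ℂ → ℂ) {ρ : ℝ} (hρ : 1 ≤ ρ) : 0 ≤ Ch a ρ :=
  Finset.sum_nonneg fun i _ => ch_nonneg (fun p => a i p.2) 0 hρ

/-- **The dichotomy for towers.** -/
theorem fam_tower (N n κ : ℕ) (dF : Fin κ → ℕ) (q m s r e : ℕ) : ∃ (B : ℕ) (C : ℝ),
    ∀ y : Sys3 N n κ dF q m s r e,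
      (∃ᶠ z in codiscrete ℂ, ∀ p, ¬ GmV y.F y.Q B (fun j => y.c.f j z) p) →
      ∃ E : Set ℝ, volume E < ⊤ ∧ ∀ ρ, 1 ≤ ρ → ρ ∉ E →
        Tf y.c.f ρ ≤ C * (Ch y.a ρ + Real.log ρ) := by
  classical
  by_contra hcon
  push Not at hcon
  obtain ⟨y, L, hZ, h2, h3, h4⟩ := eng (ι := Sys3 N n κ dF q m s r e) (S := fun y => Tf y.c.f)
    (X := fun y ρ => Ch y.a ρ + Real.log ρ) (fun y ρ hρ => by
      linarith [Ch_nonneg y.a hρ])
    (Z := fun B y => ∃ᶠ z in codiscrete ℂ, ∀ p, ¬ GmV y.F y.Q B (fun j => y.c.f j z) p)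
    (fun B hno => by
      obtain ⟨C, hC⟩ := hno
      obtain ⟨y, hy1, hy2⟩ := hcon B C
      obtain ⟨E, hE, hb⟩ := hC y hy1
      obtain ⟨r, hr1, hr2, hr3⟩ := hy2 E hE
      exact absurd (hb r hr1 hr2) (not_le.2 hr3))
  set c : ℕ → Crv N N n 1 := fun k => (y k).c with hc
  set Q : ℕ → MvPolynomial (Fin (N + 1)) ℂ := fun k => (y k).Q with hQd
  -- the coefficients are small
  have hsm : ∀ i, Sm L (fun p => Tf (c p.1).f p.2) fun p => (y p.1).a i p.2 := by
    intro i
    refine ⟨fun k => (y k).tow.ma i, ?_⟩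
    refine o_of_ev (h4.mono fun p hp => ?_) h3
    have h5 : ∀ j, 0 ≤ characteristic ((y p.1).a j) ⊤ p.2 := fun j =>
      ch_nonneg (fun p' => (y p.1).a j p'.2) 0 hp.1
    refine ⟨h5 i, ?_⟩
    change characteristic ((y p.1).a i) ⊤ p.2 ≤ Ch (y p.1).a p.2 + Real.log p.2
    have h6 : characteristic ((y p.1).a i) ⊤ p.2 ≤ Ch (y p.1).a p.2 :=
      Finset.single_le_sum (f := fun j => characteristic ((y p.1).a j) ⊤ p.2)
        (fun j _ => h5 j) (Finset.mem_univ i)
    linarith [Real.log_nonneg hp.1]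
  obtain ⟨σ, -⟩ := exists_iso (S := ∅) Set.countable_empty
  have hlF := fun i => exists_lim σ (fun k => (y k).F i) (fun k => (y k).hF i)
  choose F' hF'h hF' using hlF
  obtain ⟨Q', hQ'h, hQ'⟩ := exists_lim σ Q (fun k => (y k).hQ)
  have hq0 : ∀ k, ∃ z, eval (fun j => (c k).f j z) (Q k) ≠ 0 := fun k => (y k).hoff
  obtain ⟨l, hl⟩ := ev_index (P := fun l k => ∃ z, fs c l (k, z) ≠ 0)
    fun k => (fs_ne c (k, 0)).imp fun l hl => ⟨0, hl⟩
  have hlne : ∀ᶠ z in cod, fs c l z ≠ 0 := ent_ne (fs_ent c l) hl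
  have hQent : Ent fun p => eval (fun j => fs c j p) (Q p.1) := form_ent (fs_ent c) Q
  obtain ⟨x, hx, hPF⟩ : ∃ x : Fin (N + 1) → KS σ, (∀ G : MvPolynomial (Fin (N + 1)) ℂ,
        (∃ e, G.IsHomogeneous e) → (aeval x G = 0 ↔ VanS σ (fs c) G)) ∧ PFam x Q' := by
    rcases Nat.eq_zero_or_pos q with hd | hd
    · subst hd
      obtain ⟨b, rfl⟩ := N131.SR.const_form hQ'h
      have hb : b ≠ 0 := by
        rintro rfl
        obtain ⟨k, hk⟩ := hQ'.exists
        obtain ⟨z, hz⟩ := hq0 k
        apply hz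
        rw [← hk]
        have h7 : N131.SU.sq σ (C 0 : MvPolynomial (Fin (N + 1)) ℂ) k = 0 := by
          unfold N131.SU.sq
          rw [map_zero, MvPolynomial.support_zero, Finset.sum_empty]
        rw [h7, map_zero]
      choose u hum hu0 huj using fun k => (y k).reg.1 rfl
      have hum' : Mero fun p => u p.1 p.2 := hum
      have hu : ∀ᶠ p in cod, u p.1 p.2 ≠ 0 := by
        rw [ev_cod]
        exact Eventually.of_forall fun k => hu0 k
      have hit : ∀ j, IterS (Sm L fun p => Tf (c p.1).f p.2) fun p => u p.1 p.2 * fs c j p :=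
        fun j => in_iter (cl_sm h2) (a := fun k => (y k).a) (y := fun k => (y k).y) hsm
          (fun k => (y k).tow) (hum'.mul (fs_ent c j).mero) fun k => huj k j
      rcases proj_seq σ (cl_sm h2) (f := fs c) (h := fun j p => u p.1 p.2 * fs c j p)
        (c := fun p => u p.1 p.2) hu (fun j p => rfl) hit hlne hb with h7 | h7
      · exact (not_alg c h2 h4 hl h7).elim
      · exact h7
    · have hX : ∀ᶠ p in cod, eval (fun j => fs c j p) (Q p.1) ≠ 0 :=
        ent_ne hQent (Eventually.of_forall hq0)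
      rcases log_seqV σ (cl_sm h2) hlne hd hQ'h (fun k => (y k).hQ) hQ' hX
        (fun α hα => in_iter (cl_sm h2) (a := fun k => (y k).a) (y := fun k => (y k).y) hsm
          (fun k => (y k).tow) (by
            have h8 : Ent fun p => eval (fun j => fs c j p)
                ((fun _ => ∏ j, (X j : MvPolynomial (Fin (N + 1)) ℂ) ^ α j) p.1) :=
              form_ent (fs_ent c) fun _ => ∏ j, (X j : MvPolynomial (Fin (N + 1)) ℂ) ^ α j
            have h9 : (fun p : Pt => (∏ j, fs c j p ^ α j) / eval (fun j => fs c j p) (Q p.1)) =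
                fun p => eval (fun j => fs c j p)
                  ((fun _ => ∏ j, (X j : MvPolynomial (Fin (N + 1)) ℂ) ^ α j) p.1) /
                    eval (fun j => fs c j p) (Q p.1) := by
              funext p
              congr 1
              rw [map_prod]
              refine Finset.prod_congr rfl fun j _ => ?_
              rw [map_pow, eval_X]
            rw [h9]
            exact h8.mero.div hQent.mero) fun k => (y k).reg.2 hd α hα) with h7 | h7
      · exact (not_alg c h2 h4 hl h7).elim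
      · exact h7
  obtain ⟨M', i1, i2, P, hPx, ⟨b, m', hb, hbm⟩, j1, j2, hj⟩ := hPF
  have hF0 : ∀ i, aeval P (F' i) = 0 := by
    intro i
    rw [hPx _ ⟨_, hF'h i⟩, hx _ ⟨_, hF'h i⟩]
    unfold VanS
    rw [ev_cod]
    filter_upwards [hF' i] with k hk
    refine Eventually.of_forall fun z => ?_
    change eval (fun j => (c k).f j z) (N131.SU.sq σ (F' i) k) = 0
    rw [hk]
    exact (y k).hon i z
  obtain ⟨H, m'', T, hHh, hH0, hT, hcone⟩ := chev hF'h hQ'h hF0 hb hbm hj
  -- the vanishing of forms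
  have hvan : ∀ G : MvPolynomial (Fin (N + 1)) ℂ, IsForm G → (aeval P G = 0 ↔
      ∀ᶠ k in (U : Filter ℕ), ∀ z, eval (fun j => (c k).f j z) (N131.SU.sq σ G k) = 0) := by
    intro G hG
    rw [hPx G hG, hx G hG]
    exact ent_zero (form_ent (fs_ent c) fun k => N131.SU.sq σ G k)
  have hHk : ∀ᶠ k in (U : Filter ℕ), ∀ᶠ z in codiscrete ℂ,
      eval (fun j => (c k).f j z) (N131.SU.sq σ H k) ≠ 0 := by
    have h7 : ¬ ∀ᶠ k in (U : Filter ℕ), ∀ z,
        eval (fun j => (c k).f j z) (N131.SU.sq σ H k) = 0 := fun h8 =>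
      hH0 ((hvan H ⟨m'', hHh⟩).2 h8)
    filter_upwards [Ultrafilter.eventually_not.2 h7] with k hk
    push Not at hk
    exact diff_ne (form_ent (fs_ent c) (fun k => N131.SU.sq σ H k) k) hk
  have hTk : ∀ᶠ k in (U : Filter ℕ), ∀ G ∈ T, ∀ z,
      eval (fun j => (c k).f j z) (N131.SU.sq σ G k) = 0 := by
    rw [eventually_all_finset]
    intro G hG
    exact (hvan G (hT G hG).1).1 (hT G hG).2
  have hz : ∀ k, ∃ z, (∀ p, ¬ GmV (y k).F (y k).Q k (fun j => (c k).f j z) p) ∧
      ((∀ᶠ z in codiscrete ℂ, eval (fun j => (c k).f j z) (N131.SU.sq σ H k) ≠ 0) →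
        eval (fun j => (c k).f j z) (N131.SU.sq σ H k) ≠ 0) := by
    intro k
    by_cases hk : ∀ᶠ z in codiscrete ℂ, eval (fun j => (c k).f j z) (N131.SU.sq σ H k) ≠ 0
    · obtain ⟨z, h7, h8⟩ := ((hZ k).and_eventually hk).exists
      exact ⟨z, h7, fun _ => h8⟩
    · obtain ⟨z, h7⟩ := (hZ k).exists
      exact ⟨z, h7, fun h8 => absurd h8 hk⟩
  choose z hz1 hz2 using hz
  set w : Fin (N + 1) → ℕ → ℂ := fun i k => (c k).f i (z k) with hw
  set v : Fin (N + 1) → ℂ := fun i => σ.symm (gc (w i)) with hv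
  have hvw : ∀ i, σ (v i) = gc (w i) := fun i => RingEquiv.apply_symm_apply σ _
  obtain ⟨p, hp1, hp2, ⟨b', hb', hp3⟩, hp5, hp6⟩ := hcone v (fun G hG => by
      rw [los_eval σ hvw]
      filter_upwards [hTk] with k hk
      exact hk G hG (z k)) (by
      rw [Ne, los_eval σ hvw, ← Ultrafilter.eventually_not]
      filter_upwards [hHk] with k hk
      exact hz2 k hk)
  have key := transferP σ p hp2 hb' hp3 hp5 hp6 hvw
  set D : ℕ := Finset.univ.sup fun j => (p j).natDegree with hD
  have hge : ∀ᶠ k in (U : Filter ℕ), D ≤ k := Nat.hyperfilter_le_atTop (eventually_ge_atTop D)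
  have hFall : ∀ᶠ k in (U : Filter ℕ), ∀ i, N131.SU.sq σ (F' i) k = (y k).F i :=
    eventually_all.2 hF'
  obtain ⟨k, ⟨R, r1, r2, ⟨b'', r3, r4⟩, r6, r7⟩, hk1, hk2, hk3⟩ :=
    (key.and (hge.and (hFall.and hQ'))).exists
  refine hz1 k R ⟨fun j => (r1 j).trans (le_trans ?_ hk1), fun i => ?_, ⟨b'', m', r3, ?_⟩,
    ⟨j1, j2, r6⟩, r7⟩
  · exact Finset.le_sup (f := fun j => (p j).natDegree) (Finset.mem_univ j)
  · rw [← hk2 i]
    exact r2 i
  · rw [← r4, hk3]

end Pool.Agent.H60W
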