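import Mathlib
import Pool.Agent.H60W.Tw
import Pool.Agent.H60W.Fin

/-!
The dichotomy for towers without the logarithm of the radius.
-/

set_option autoImplicit false

namespace Pool.Agent.H60W

open MeasureTheory Set Filter Topology MvPolynomial
open Pool.Agent.N131.SU (Crv)
open Pool.Agent.N131.SR (Tf)

/-- a basis of the span -/
theorem exists_basis {N : ℕ} (f : Fin N → ℂ → ℂ) : ∃ (n : ℕ) (g : Fin n → ℂ → ℂ),
    LinearIndependent ℂ g ∧ Submodule.span ℂ (Set.range g) = Submodule.span ℂ (Set.range f) := by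
  let V : Submodule ℂ (ℂ → ℂ) := Submodule.span ℂ (Set.range f)
  have hV : FiniteDimensional ℂ V := FiniteDimensional.span_of_finite ℂ (Set.finite_range f)
  let b := Module.finBasis ℂ V
  refine ⟨_, fun i => (b i : ℂ → ℂ), ?_, ?_⟩
  · exact b.linearIndependent.map' V.subtype (Submodule.ker_subtype V)
  · have h1 : Set.range (fun i => (b i : ℂ → ℂ)) = V.subtype '' Set.range b := by
      rw [← Set.range_comp]
      rfl
    rw [h1, Submodule.span_image, b.span_eq, Submodule.map_top, Submodule.range_subtype]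

/-- large radii outside a set of finite measure -/
theorem exists_large {E : Set ℝ} (hE : volume E < ⊤) (R : ℝ) : ∃ ρ, R ≤ ρ ∧ ρ ∉ E := by
  by_contra hcon
  push Not at hcon
  have h1 : Set.Ici R ⊆ E := fun ρ hρ => hcon ρ hρ
  have h2 := measure_mono (μ := volume) h1
  rw [Real.volume_Ici] at h2
  exact absurd (lt_of_le_of_lt h2 hE) (lt_irrefl _)

/-- **The dichotomy for towers.** -/
theorem tower_dich (hRAT : H60S.S_RAT) (N κ : ℕ) (dF : Fin κ → ℕ) (q m s r e : ℕ) :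
    ∃ (B : ℕ) (C : ℝ), 0 ≤ C ∧
    ∀ (F : Fin κ → MvPolynomial (Fin (N + 1)) ℂ) (Q : MvPolynomial (Fin (N + 1)) ℂ),
      (∀ i, (F i).IsHomogeneous (dF i)) → Q.IsHomogeneous q → ∀ f : Fin (N + 1) → ℂ → ℂ,
      (∀ j, Differentiable ℂ (f j)) → (∀ z, ∃ j, f j z ≠ 0) →
      (∀ i z, eval (fun j => f j z) (F i) = 0) → (∀ z, eval (fun j => f j z) Q ≠ 0) →
      (∃ s t j k, f j s * f k t ≠ f k s * f j t) →
      ∀ (a : Fin m → ℂ → ℂ) (y : Fin s → Fin r → ℂ → ℂ), Tower e a y →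
      Reg e a y Q q (fun z j => f j z) →
      (∃ᶠ z in codiscrete ℂ, ∀ p, ¬ GmV F Q B (fun j => f j z) p) →
      0 < m ∧ ∃ E : Set ℝ, volume E < ⊤ ∧ ∀ ρ, 1 ≤ ρ → ρ ∉ E →
        Tf f ρ + Real.log ρ ≤ C * Ch a ρ := by
  classical
  choose B C hC using fun n => fam_tower N n κ dF q m s r e
  set B0 : ℕ := (Finset.range (N + 2)).sup B with hB0
  set C0 : ℝ := ∑ i ∈ Finset.range (N + 2), |C i| with hC0
  have hC00 : 0 ≤ C0 := Finset.sum_nonneg fun i _ => abs_nonneg _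
  set D : ℝ := 2 * C0 + 1 with hD
  refine ⟨max B0 ⌈8 * D⌉₊, 2 * C0, by positivity,
    fun F Q hF hQ f hf f0 fF fQ hnc a y ht hreg hfr => ?_⟩
  have hB : 8 * D ≤ ((max B0 ⌈8 * D⌉₊ : ℕ) : ℝ) := by
    have h2 : ((⌈8 * D⌉₊ : ℕ) : ℝ) ≤ ((max B0 ⌈8 * D⌉₊ : ℕ) : ℝ) := by
      exact_mod_cast le_max_right _ _
    exact (Nat.le_ceil (8 * D)).trans h2
  obtain ⟨n, g, hg, hsp⟩ := exists_basis f
  let c : Crv N N n 1 := ⟨f, fun j => X j, g, ⟨hf, one_pos, fun j => isHomogeneous_X _ _,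
    fun z => by
      obtain ⟨j, hj⟩ := f0 z
      refine ⟨j, ?_⟩
      change eval (fun k => f k z) (X j) ≠ 0
      rwa [eval_X], hg, hsp⟩⟩
  have hcf : c.f = f := by
    funext j z
    change eval (fun k => f k z) (X j) = f j z
    rw [eval_X]
  have hn : n ∈ Finset.range (N + 2) := Finset.mem_range.2 (by have := c.n_le; omega)
  obtain ⟨E, hE, hb⟩ := hC n ⟨F, hF, Q, hQ, c, by rw [hcf]; exact fF,
    by rw [hcf]; exact ⟨0, fQ 0⟩, a, y, ht, by rw [hcf]; exact hreg⟩ (by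
      change ∃ᶠ z in codiscrete ℂ, ∀ p, ¬ GmV F Q (B n) (fun j => c.f j z) p
      rw [hcf]
      refine hfr.mono fun z hz p hp => hz p ⟨fun j => (hp.1 j).trans ?_, hp.2⟩
      exact (Finset.le_sup (f := B) hn).trans (le_max_left _ _))
  change ∀ ρ, 1 ≤ ρ → ρ ∉ E → Tf c.f ρ ≤ C n * (Ch a ρ + Real.log ρ) at hb
  rw [hcf] at hb
  obtain ⟨R, hR⟩ := grow2 hRAT (D := D) (by positivity) hB hF hQ hf f0 fF fQ hnc hfr
  have hCn : |C n| ≤ C0 :=
    Finset.single_le_sum (f := fun i => |C i|) (fun i _ => abs_nonneg _) hn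
  have key : ∀ ρ, 1 ≤ ρ → ρ ∉ E ∪ Icc 1 R → Tf f ρ + Real.log ρ ≤ 2 * C0 * Ch a ρ := by
    intro ρ hρ hρE
    have h1 := hb ρ hρ fun h => hρE (Or.inl h)
    have h2 : R < ρ := by
      by_contra hcon
      exact hρE (Or.inr ⟨hρ, not_lt.1 hcon⟩)
    have h3 : (2 * C0 + 1) * Real.log ρ < Tf f ρ := hR ρ h2.le
    have h4 : 0 ≤ Ch a ρ + Real.log ρ := add_nonneg (Ch_nonneg a hρ) (Real.log_nonneg hρ)
    have h5 : C n * (Ch a ρ + Real.log ρ) ≤ C0 * (Ch a ρ + Real.log ρ) :=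
      mul_le_mul_of_nonneg_right ((le_abs_self _).trans hCn) h4
    have h6 := h1.trans h5
    rw [mul_add] at h6
    linarith
  have hEm := N131.SU.fin_union hE R
  refine ⟨?_, E ∪ Icc 1 R, hEm, key⟩
  by_contra hm
  have hm0 : m = 0 := by omega
  subst hm0
  obtain ⟨ρ, h1, h2⟩ := exists_large hEm (max R 1)
  have h3 := key ρ ((le_max_right _ _).trans h1) h2
  have h4 : (2 * C0 + 1) * Real.log ρ < Tf f ρ := hR ρ ((le_max_left _ _).trans h1)
  have h5 := Real.log_nonneg ((le_max_right _ _).trans h1)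
  have h6 : Ch a ρ = 0 := by
    unfold Ch
    simp
  rw [h6, mul_zero] at h3
  have h7 : 0 ≤ (2 * C0 + 1) * Real.log ρ := by positivity
  linarith

end Pool.Agent.H60W
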