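import Mathlib
import Pool.Agent.H60W.TwF

/-!
Towers over given functions and rational functions of bounded degree.
-/

set_option autoImplicit false

namespace Pool.Agent.H60W

open MeasureTheory Set Filter Topology MvPolynomial
open Pool.Agent.N131.SU (Crv)
open Pool.Agent.N131.SR (Tf ratio_le char_mul char_add char_inv char_const)
open ValueDistribution (characteristic)

/-- `g = P / R` with polynomials of degree at most `δ` -/
def IsRat (δ : ℕ) (g : ℂ → ℂ) : Prop :=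
  ∃ P R : Polynomial ℂ, R ≠ 0 ∧ P.natDegree ≤ δ ∧ R.natDegree ≤ δ ∧ ∀ z, g z = P.eval z / R.eval z

theorem mero_poly (P : Polynomial ℂ) : Meromorphic fun z => P.eval z :=
  N131.SR.diff_mero P.differentiable

theorem char_id : ∃ C : ℝ, ∀ ρ, 1 ≤ ρ → characteristic (fun z : ℂ => z) ⊤ ρ ≤ Real.log ρ + C := by
  let f : Fin 2 → ℂ → ℂ := fun j => if j = 0 then fun _ => 1 else fun z => z
  have hf : ∀ j, Differentiable ℂ (f j) := by
    intro j
    fin_cases j
    · exact differentiable_const _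
    · exact differentiable_id
  obtain ⟨C, hC⟩ := ratio_le (N := 1) hf (fun z => ⟨0, one_ne_zero⟩) 1 0 ⟨0, one_ne_zero⟩
  refine ⟨C, fun ρ hρ => ?_⟩
  have h1 := hC ρ hρ
  have h2 : (fun z => f 1 z / f 0 z) = fun z : ℂ => z := by
    funext z
    change z / 1 = z
    rw [div_one]
  rw [h2] at h1
  have h3 : Tf f ρ = Real.log ρ := by
    unfold Tf
    apply Real.circleAverage_const_on_circle
    intro z hz
    rw [mem_sphere_zero_iff_norm, abs_of_pos (by linarith)] at hz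
    congr 1
    apply le_antisymm
    · rw [pi_norm_le_iff_of_nonneg (by linarith)]
      intro j
      fin_cases j
      · change ‖(1 : ℂ)‖ ≤ ρ
        rw [norm_one]
        exact hρ
      · exact hz.le
    · have h4 := norm_le_pi_norm (fun j => f j z) 1
      rw [← hz]
      exact h4
  rw [h3] at h1
  exact h1

theorem char_poly (n : ℕ) : ∀ P : Polynomial ℂ, P.natDegree ≤ n →
    ∃ C : ℝ, ∀ ρ, 1 ≤ ρ → characteristic (fun z => P.eval z) ⊤ ρ ≤ n * Real.log ρ + C := by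
  induction n with
  | zero =>
    intro P hP
    obtain ⟨c, rfl⟩ := Polynomial.natDegree_eq_zero.1 (Nat.le_zero.1 hP)
    refine ⟨Real.posLog ‖c‖, fun ρ _ => ?_⟩
    simp only [Polynomial.eval_C]
    rw [char_const]
    simp
  | succ n ih =>
    intro P hP
    obtain ⟨C1, h1⟩ := char_id
    obtain ⟨C2, h2⟩ := ih P.divX (by
      rw [Polynomial.natDegree_divX_eq_natDegree_tsub_one]
      omega)
    refine ⟨C1 + C2 + Real.posLog ‖P.coeff 0‖ + Real.log 2, fun ρ hρ => ?_⟩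
    have h3 : (fun z => P.eval z) = fun z => (P.divX.eval z * z) + P.coeff 0 := by
      funext z
      conv_lhs => rw [← P.divX_mul_X_add]
      rw [Polynomial.eval_add, Polynomial.eval_mul, Polynomial.eval_X, Polynomial.eval_C]
    rw [h3]
    have hid : Meromorphic fun z : ℂ => z := N131.SR.diff_mero differentiable_id
    have h4 := char_add ((mero_poly P.divX).mul hid) (Meromorphic.const (P.coeff 0)) hρ
    have h5 := char_mul (mero_poly P.divX) hid hρ
    have h6 := h1 ρ hρ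
    have h7 := h2 ρ hρ
    have h8 := char_const (P.coeff 0) ρ
    have h9 : characteristic (fun z => P.divX.eval z * z + P.coeff 0) ⊤ ρ ≤
        characteristic (fun z => P.divX.eval z * z) ⊤ ρ +
          characteristic (fun _ => P.coeff 0) ⊤ ρ + Real.log 2 := h4
    push_cast
    linarith

theorem char_rat {δ : ℕ} {g : ℂ → ℂ} (hg : IsRat δ g) : Meromorphic g ∧
    ∃ C : ℝ, ∀ ρ, 1 ≤ ρ → characteristic g ⊤ ρ ≤ 2 * δ * Real.log ρ + C := by
  obtain ⟨P, R, hR, hPd, hRd, h⟩ := hg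
  have hg1 : g = fun z => P.eval z * (R.eval z)⁻¹ := by
    funext z
    rw [h z, div_eq_mul_inv]
  subst hg1
  refine ⟨(mero_poly P).mul (mero_poly R).inv, ?_⟩
  obtain ⟨C1, h1⟩ := char_poly δ P hPd
  obtain ⟨C2, h2⟩ := char_poly δ R hRd
  obtain ⟨C3, h3⟩ := char_inv (mero_poly R)
  refine ⟨C1 + C2 + C3, fun ρ hρ => ?_⟩
  have h4 := char_mul (mero_poly P) (mero_poly R).inv hρ
  have h5 := h1 ρ hρ
  have h6 := h2 ρ hρ
  have h7 := h3 ρ
  have h8 : characteristic (fun z => P.eval z * (R.eval z)⁻¹) ⊤ ρ ≤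
      characteristic (fun z => P.eval z) ⊤ ρ + characteristic (fun z => (R.eval z)⁻¹) ⊤ ρ := h4
  linarith

/-- **The dichotomy for towers over given functions and rational functions.** -/
theorem tower_dich_rat (hRAT : H60S.S_RAT) (N κ : ℕ) (dF : Fin κ → ℕ) (q m m' δ s r e : ℕ) :
    ∃ (B : ℕ) (C : ℝ), 0 ≤ C ∧
    ∀ (F : Fin κ → MvPolynomial (Fin (N + 1)) ℂ) (Q : MvPolynomial (Fin (N + 1)) ℂ),
      (∀ i, (F i).IsHomogeneous (dF i)) → Q.IsHomogeneous q → ∀ f : Fin (N + 1) → ℂ → ℂ,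
      (∀ j, Differentiable ℂ (f j)) → (∀ z, ∃ j, f j z ≠ 0) →
      (∀ i z, eval (fun j => f j z) (F i) = 0) → (∀ z, eval (fun j => f j z) Q ≠ 0) →
      (∃ s t j k, f j s * f k t ≠ f k s * f j t) →
      ∀ (a : Fin m → ℂ → ℂ) (b : Fin m' → ℂ → ℂ) (y : Fin s → Fin r → ℂ → ℂ),
      (∀ i, IsRat δ (b i)) → Tower e (Fin.append a b) y →
      Reg e (Fin.append a b) y Q q (fun z j => f j z) →
      (∃ᶠ z in codiscrete ℂ, ∀ p, ¬ GmV F Q B (fun j => f j z) p) →
      0 < m ∧ ∃ E : Set ℝ, volume E < ⊤ ∧ ∀ ρ, 1 ≤ ρ → ρ ∉ E →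
        Tf f ρ + Real.log ρ ≤ C * Ch a ρ := by
  classical
  choose B C hC using fun n => fam_tower N n κ dF q (m + m') s r e
  set B0 : ℕ := (Finset.range (N + 2)).sup B with hB0
  set C0 : ℝ := ∑ i ∈ Finset.range (N + 2), |C i| with hC0
  have hC00 : 0 ≤ C0 := Finset.sum_nonneg fun i _ => abs_nonneg _
  set K : ℝ := m' * (2 * δ) + 2 with hK
  have hK0 : 0 ≤ K := by positivity
  set D : ℝ := 2 * (C0 * K) + 1 with hD
  have hD0 : 0 ≤ D := by positivity
  refine ⟨max B0 ⌈8 * D⌉₊, 2 * C0, by positivity,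
    fun F Q hF hQ f hf f0 fF fQ hnc a b y hb' ht hreg hfr => ?_⟩
  have hB : 8 * D ≤ ((max B0 ⌈8 * D⌉₊ : ℕ) : ℝ) := by
    have h2 : ((⌈8 * D⌉₊ : ℕ) : ℝ) ≤ ((max B0 ⌈8 * D⌉₊ : ℕ) : ℝ) := by
      exact_mod_cast le_max_right _ _
    exact (Nat.le_ceil (8 * D)).trans h2
  obtain ⟨n, g, hg, hsp⟩ := exists_basis f
  let c : Crv N N n 1 := ⟨f, fun j => X j, g, ⟨hf, one_pos, fun j => isHomogeneous_X _ _,
    fun z => by
      obtain ⟨j, hj⟩ := f0 z
      refine ⟨j, ?_⟩
      change eval (fun k => f k z) (X j) ≠ 0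
      rwa [eval_X], hg, hsp⟩⟩
  have hcf : c.f = f := by
    funext j z
    change eval (fun k => f k z) (X j) = f j z
    rw [eval_X]
  have hn : n ∈ Finset.range (N + 2) := Finset.mem_range.2 (by have := c.n_le; omega)
  obtain ⟨E, hE, hb⟩ := hC n ⟨F, hF, Q, hQ, c, by rw [hcf]; exact fF,
    by rw [hcf]; exact ⟨0, fQ 0⟩, Fin.append a b, y, ht, by rw [hcf]; exact hreg⟩ (by
      change ∃ᶠ z in codiscrete ℂ, ∀ p, ¬ GmV F Q (B n) (fun j => c.f j z) p
      rw [hcf]
      refine hfr.mono fun z hz p hp => hz p ⟨fun j => (hp.1 j).trans ?_, hp.2⟩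
      exact (Finset.le_sup (f := B) hn).trans (le_max_left _ _))
  change ∀ ρ, 1 ≤ ρ → ρ ∉ E → Tf c.f ρ ≤ C n * (Ch (Fin.append a b) ρ + Real.log ρ) at hb
  rw [hcf] at hb
  obtain ⟨R, hR⟩ := grow2 hRAT (D := D) hD0 hB hF hQ hf f0 fF fQ hnc hfr
  have hCn : |C n| ≤ C0 :=
    Finset.single_le_sum (f := fun i => |C i|) (fun i _ => abs_nonneg _) hn
  -- the rational functions
  choose hbm Cb hCb using fun i => char_rat (hb' i)
  have hCh : ∀ ρ, Ch (Fin.append a b) ρ = Ch a ρ + Ch b ρ := by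
    intro ρ
    unfold Ch
    rw [Fin.sum_univ_add]
    congr 1
    · exact Finset.sum_congr rfl fun i _ => by rw [Fin.append_left]
    · exact Finset.sum_congr rfl fun i _ => by rw [Fin.append_right]
  have hChb : ∀ ρ, 1 ≤ ρ → Ch b ρ ≤ m' * (2 * δ) * Real.log ρ + ∑ i, Cb i := by
    intro ρ hρ
    unfold Ch
    refine (Finset.sum_le_sum fun i _ => hCb i ρ hρ).trans ?_
    rw [Finset.sum_add_distrib, Finset.sum_const, Finset.card_univ, Fintype.card_fin,
      nsmul_eq_mul]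
    linarith
  set R' : ℝ := max R (Real.exp (∑ i, Cb i)) with hR'
  have key : ∀ ρ, 1 ≤ ρ → ρ ∉ E ∪ Icc 1 R' → Tf f ρ + Real.log ρ ≤ 2 * C0 * Ch a ρ := by
    intro ρ hρ hρE
    have h1 := hb ρ hρ fun h => hρE (Or.inl h)
    have h2 : R' < ρ := by
      by_contra hcon
      exact hρE (Or.inr ⟨hρ, not_lt.1 hcon⟩)
    have h3 : (2 * (C0 * K) + 1) * Real.log ρ < Tf f ρ := hR ρ ((le_max_left _ _).trans h2.le)
    have hexp : ∑ i, Cb i ≤ Real.log ρ := by
      rw [Real.le_log_iff_exp_le (by linarith)]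
      exact (le_max_right _ _).trans h2.le
    have hlog := Real.log_nonneg hρ
    have h4 : 0 ≤ Ch (Fin.append a b) ρ + Real.log ρ :=
      add_nonneg (Ch_nonneg _ hρ) hlog
    have h5 : C n * (Ch (Fin.append a b) ρ + Real.log ρ) ≤
        C0 * (Ch (Fin.append a b) ρ + Real.log ρ) :=
      mul_le_mul_of_nonneg_right ((le_abs_self _).trans hCn) h4
    have h6 : Ch (Fin.append a b) ρ + Real.log ρ ≤ Ch a ρ + K * Real.log ρ := by
      have h7 := hChb ρ hρ
      rw [hCh, hK]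
      linarith
    have h8 := (h1.trans h5).trans (mul_le_mul_of_nonneg_left h6 hC00)
    have h9 : C0 * (Ch a ρ + K * Real.log ρ) = C0 * Ch a ρ + C0 * K * Real.log ρ := by ring
    rw [h9] at h8
    linarith
  have hEm := N131.SU.fin_union hE R'
  refine ⟨?_, E ∪ Icc 1 R', hEm, key⟩
  by_contra hm
  have hm0 : m = 0 := by omega
  subst hm0
  obtain ⟨ρ, h1, h2⟩ := exists_large hEm (max R 1)
  have h3 := key ρ ((le_max_right _ _).trans h1) h2
  have h4 : D * Real.log ρ < Tf f ρ := hR ρ ((le_max_left _ _).trans h1)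
  have h5 := Real.log_nonneg ((le_max_right _ _).trans h1)
  have h6 : Ch a ρ = 0 := by
    unfold Ch
    simp
  rw [h6, mul_zero] at h3
  have h7 : 0 ≤ D * Real.log ρ := mul_nonneg hD0 h5
  linarith

end Pool.Agent.H60W
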